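import Mathlib
import Pool.Agent.H772R2.NSG.Near

/-!
If the data of a Leray-Hopf solution are extremely well approximated by the data of strong
solutions, then the Leray-Hopf solution is unique, continuous and satisfies the energy equality.
-/

set_option linter.unusedSectionVars false

open MeasureTheory Set Filter Topology Metric
open scoped InnerProductSpace NNReal ENNReal

namespace Pool.Agent.H319R3.GV

open H772R2.NSR (Frame grad_unique prim_cont)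
open H772R2.NSG

variable {H K : Type*} [NormedAddCommGroup H] [InnerProductSpace ℝ H] [CompleteSpace H]
  [NormedAddCommGroup K] [InnerProductSpace ℝ K] [CompleteSpace K]

variable {W : Submodule ℝ (H × K)} {m : H → K} {C : ℝ} {ν T : ℝ}

section

variable {n : ℝ → ℝ} {F : ℝ → K} {x0 : H} {u u1 : ℝ → H} {z z1 : ℝ → K} {Z : ℝ}

theorem st_mono {T' : ℝ} (h : T' ≤ T) (S : St W m T n F x0 u z u1 z1 Z) :
    St W m T' n F x0 u z u1 z1 Z := by
  have hsub : (volume.restrict (Ioc 0 T') : Measure ℝ) ≤ volume.restrict (Ioc 0 T) :=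
    Measure.restrict_mono (Ioc_subset_Ioc_right h) le_rfl
  exact ⟨S.init, fun t ht => S.mem t ⟨ht.1, ht.2.trans h⟩, S.u1i.mono_measure hsub,
    S.z1i.mono_measure hsub, fun a b ha hab hb => S.pu a b ha hab (hb.trans h),
    fun a b ha hab hb => S.pz a b ha hab (hb.trans h), ae_mono hsub S.mem1,
    S.nc.mono (Icc_subset_Icc_right h), S.Fc.mono (Icc_subset_Icc_right h),
    fun p hp t ht => S.weak p hp t ⟨ht.1, ht.2.trans h⟩,
    fun t ht => S.energy t ⟨ht.1, ht.2.trans h⟩, fun t ht => S.bz t ⟨ht.1, ht.2.trans h⟩⟩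

theorem st_bound {Z' : ℝ} (h : Z ≤ Z') (S : St W m T n F x0 u z u1 z1 Z) :
    St W m T n F x0 u z u1 z1 Z' :=
  ⟨S.init, S.mem, S.u1i, S.z1i, S.pu, S.pz, S.mem1, S.nc, S.Fc, S.weak, S.energy,
    fun t ht => (S.bz t ht).trans h⟩

theorem st_lh (Fr : Frame W m C) (S : St W m T n F x0 u z u1 z1 Z) : LH W m T n F x0 u z := by
  refine ⟨S.init, (mem_cont (p := 2) S.uc).aestronglyMeasurable,
    (mem_cont (p := 2) (S.mc Fr)).aestronglyMeasurable, ?_, mem_cont S.zc, ?_, S.weak,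
    fun t ht => (S.energy t ht).le⟩
  · filter_upwards [ae_restrict_mem measurableSet_Ioc] with s hs
    exact S.mem s (Ioc_subset_Icc_self hs)
  · have : ContinuousOn (fun s => n s * ‖z s‖ ^ 2) (Icc 0 T) := S.nc.mul (S.zc.norm.pow 2)
    exact (mem_cont (p := 1) this).integrable le_rfl

theorem st_coef (hlow : ∀ t ∈ Icc 0 T, ν ≤ n t) (S : St W m T n F x0 u z u1 z1 Z) :
    Coef ν T n F := by
  refine ⟨mem_cont S.nc, ?_, mem_cont S.Fc⟩
  filter_upwards [ae_restrict_mem measurableSet_Ioc] with s hs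
  exact hlow s (Ioc_subset_Icc_self hs)

end

theorem two_le_stc (hν : 0 < ν) (hT : 0 < T) {Z : ℝ} : 2 ≤ stc C ν T Z := by
  have h := cc_nonneg (C := C) hν (Z := Z)
  unfold stc
  have h1 : 1 ≤ Real.exp (2 * cc C ν Z * T) := Real.one_le_exp (by positivity)
  have h2 : 0 ≤ (2 + 2 / ν) * (1 + cc C ν Z * T * (2 * Real.exp (2 * cc C ν Z * T))) := by
    positivity
  linarith

theorem stc_mono (hν : 0 < ν) {T' : ℝ} (h0 : 0 < T') (h : T' ≤ T) {Z : ℝ} :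
    stc C ν T' Z ≤ stc C ν T Z := by
  have hc := cc_nonneg (C := C) hν (Z := Z)
  have hT0 : 0 < T := h0.trans_le h
  have h1 : Real.exp (2 * cc C ν Z * T') ≤ Real.exp (2 * cc C ν Z * T) := by gcongr
  have h2 : cc C ν Z * T' * (2 * Real.exp (2 * cc C ν Z * T'))
      ≤ cc C ν Z * T * (2 * Real.exp (2 * cc C ν Z * T)) := by
    have h3 : cc C ν Z * T' ≤ cc C ν Z * T := by gcongr
    have h4 : 0 ≤ cc C ν Z * T := by positivity
    exact mul_le_mul h3 (by linarith) (by positivity) h4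
  unfold stc
  have h5 : (2 + 2 / ν) * (1 + cc C ν Z * T' * (2 * Real.exp (2 * cc C ν Z * T')))
      ≤ (2 + 2 / ν) * (1 + cc C ν Z * T * (2 * Real.exp (2 * cc C ν Z * T))) :=
    mul_le_mul_of_nonneg_left (by linarith) (by positivity)
  linarith

section gap

variable {n nb : ℝ → ℝ} {F Fb : ℝ → K} {x0 xb0 : H} {Z : ℝ}

theorem sq_int {f g : ℝ → K} (hf : MemLp f 2 (volume.restrict (Ioc 0 T)))
    (hg : MemLp g 2 (volume.restrict (Ioc 0 T))) :
    Integrable (fun s => ‖f s - g s‖ ^ 2) (volume.restrict (Ioc 0 T)) :=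
  (memLp_two_iff_integrable_sq_norm (hf.sub hg).aestronglyMeasurable).mp (hf.sub hg)

theorem sq_int_real {f g : ℝ → ℝ} (hf : MemLp f 2 (volume.restrict (Ioc 0 T)))
    (hg : MemLp g 2 (volume.restrict (Ioc 0 T))) :
    Integrable (fun s => (f s - g s) ^ 2) (volume.restrict (Ioc 0 T)) := by
  have := (memLp_two_iff_integrable_sq_norm (hf.sub hg).aestronglyMeasurable).mp (hf.sub hg)
  refine this.congr (Eventually.of_forall fun s => ?_)
  show ‖f s - g s‖ ^ 2 = (f s - g s) ^ 2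
  rw [Real.norm_eq_abs, sq_abs]

theorem gap_eq (hF : MemLp F 2 (volume.restrict (Ioc 0 T)))
    (hFb : MemLp Fb 2 (volume.restrict (Ioc 0 T))) (hn : MemLp n 2 (volume.restrict (Ioc 0 T)))
    (hnb : MemLp nb 2 (volume.restrict (Ioc 0 T))) :
    gap ν T Z n nb F Fb x0 xb0 = ‖x0 - xb0‖ ^ 2 / 2
      + 2 / ν * (∫ s in Ioc 0 T, ‖F s - Fb s‖ ^ 2)
      + 2 / ν * Z ^ 2 * (∫ s in Ioc 0 T, ‖n s - nb s‖ ^ 2) := by
  unfold gap
  have e : ∫ s in Ioc 0 T, ‖n s - nb s‖ ^ 2 = ∫ s in Ioc 0 T, (n s - nb s) ^ 2 := by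
    refine integral_congr_ae (Eventually.of_forall fun s => ?_)
    show ‖n s - nb s‖ ^ 2 = (n s - nb s) ^ 2
    rw [Real.norm_eq_abs, sq_abs]
  rw [integral_add ((sq_int hF hFb).const_mul _) ((sq_int_real hn hnb).const_mul _),
    integral_const_mul, integral_const_mul, ← add_assoc, e]

theorem gap_mono (hν : 0 < ν) (hF : MemLp F 2 (volume.restrict (Ioc 0 T)))
    (hFb : MemLp Fb 2 (volume.restrict (Ioc 0 T))) (hn : MemLp n 2 (volume.restrict (Ioc 0 T)))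
    (hnb : MemLp nb 2 (volume.restrict (Ioc 0 T))) {T' : ℝ} (h : T' ≤ T) :
    gap ν T' Z n nb F Fb x0 xb0 ≤ gap ν T Z n nb F Fb x0 xb0 := by
  unfold gap
  refine add_le_add le_rfl ?_
  refine setIntegral_mono_set
    (((sq_int hF hFb).const_mul _).add ((sq_int_real hn hnb).const_mul _))
    (Eventually.of_forall fun s => ?_) (Ioc_subset_Ioc_right h).eventuallyLE
  show 0 ≤ 2 / ν * ‖F s - Fb s‖ ^ 2 + 2 / ν * Z ^ 2 * (n s - nb s) ^ 2
  positivity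

end gap

theorem tend_sq {Y : Type*} [NormedAddCommGroup Y] [InnerProductSpace ℝ Y] {μ : Measure ℝ}
    {f : ℕ → ℝ → Y} {f0 g : ℝ → Y} (hf : ∀ k, MemLp (f k) 2 μ) (hf0 : MemLp f0 2 μ)
    (hg : MemLp g 2 μ) (h : Tendsto (fun k => ∫ s, ‖f k s - f0 s‖ ^ 2 ∂μ) atTop (𝓝 0)) :
    Tendsto (fun k => ∫ s, ‖f k s - g s‖ ^ 2 ∂μ) atTop (𝓝 (∫ s, ‖f0 s - g s‖ ^ 2 ∂μ)) := by
  have h1 := toLp_tendsto hf hf0 h
  have h2 := ((h1.sub_const (hg.toLp g)).norm).pow 2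
  rw [toLp_sub_norm_sq hf0 hg] at h2
  refine h2.congr fun k => ?_
  rw [toLp_sub_norm_sq (hf k) hg]

theorem gap_near {n nb : ℝ → ℝ} {F Fb : ℝ → K} {x0 xb0 : H} {Z c : ℝ}
    (hF : MemLp F 2 (volume.restrict (Ioc 0 T)))
    (hFb : MemLp Fb 2 (volume.restrict (Ioc 0 T))) (hn : MemLp n 2 (volume.restrict (Ioc 0 T)))
    (hnb : MemLp nb 2 (volume.restrict (Ioc 0 T)))
    (h : stc C ν T Z * gap ν T Z n nb F Fb x0 xb0 < c) :
    ∃ δ : ℝ, 0 < δ ∧ ∀ (n' : ℝ → ℝ) (F' : ℝ → K) (x' : H),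
      MemLp n' 2 (volume.restrict (Ioc 0 T)) → MemLp F' 2 (volume.restrict (Ioc 0 T)) →
      ‖x' - x0‖ ≤ δ → ∫ s in Ioc 0 T, ‖F' s - F s‖ ^ 2 ≤ δ →
      ∫ s in Ioc 0 T, ‖n' s - n s‖ ^ 2 ≤ δ →
      stc C ν T Z * gap ν T Z n' nb F' Fb x' xb0 < c := by
  by_contra hcon
  push Not at hcon
  have hcon' := fun i : ℕ => hcon (1 / ((i : ℝ) + 1)) (by positivity)
  choose nn FF xx hnn hFF hx hF2 hn2 hbad using hcon'
  have hinv : Tendsto (fun k : ℕ => 1 / ((k : ℝ) + 1)) atTop (𝓝 0) :=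
    tendsto_one_div_add_atTop_nhds_zero_nat
  have tx : Tendsto xx atTop (𝓝 x0) := by
    rw [tendsto_iff_norm_sub_tendsto_zero]
    exact squeeze_zero (fun k => norm_nonneg _) hx hinv
  have tF : Tendsto (fun k => ∫ s in Ioc 0 T, ‖FF k s - F s‖ ^ 2) atTop (𝓝 0) :=
    squeeze_zero (fun k => integral_nonneg fun s => by positivity) hF2 hinv
  have tn : Tendsto (fun k => ∫ s in Ioc 0 T, ‖nn k s - n s‖ ^ 2) atTop (𝓝 0) :=
    squeeze_zero (fun k => integral_nonneg fun s => by positivity) hn2 hinv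
  have tg : Tendsto (fun i => gap ν T Z (nn i) nb (FF i) Fb (xx i) xb0) atTop
      (𝓝 (gap ν T Z n nb F Fb x0 xb0)) := by
    have e : ∀ i, gap ν T Z (nn i) nb (FF i) Fb (xx i) xb0
        = ‖xx i - xb0‖ ^ 2 / 2 + 2 / ν * (∫ s in Ioc 0 T, ‖FF i s - Fb s‖ ^ 2)
          + 2 / ν * Z ^ 2 * (∫ s in Ioc 0 T, ‖nn i s - nb s‖ ^ 2) := fun i =>
      gap_eq (hFF i) hFb (hnn i) hnb
    simp_rw [e]
    rw [gap_eq hF hFb hn hnb]
    refine Tendsto.add (Tendsto.add ?_ ?_) ?_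
    · exact (((tx.sub_const _).norm).pow 2).div_const 2
    · exact (tend_sq hFF hF hFb tF).const_mul _
    · exact (tend_sq hnn hn hnb tn).const_mul _
  have t2 := tg.const_mul (stc C ν T Z)
  obtain ⟨i, hi⟩ := (t2.eventually_lt_const h).exists
  exact absurd hi (not_lt.mpr (hbad i))

/-- Well-posedness of the data `(n, F, x0)` in the class of Leray-Hopf solutions. -/
structure WP (W : Submodule ℝ (H × K)) (m : H → K) (ν T : ℝ) (n : ℝ → ℝ) (F : ℝ → K) (x0 : H)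
    (u : ℝ → H) (z : ℝ → K) : Prop where
  lh : LH W m T n F x0 u z
  cl : ∀ t ∈ Icc 0 T, u t ∈ closure {x : H | ∃ y, (x, y) ∈ W}
  uc : ContinuousOn u (Icc 0 T)
  eq : ∀ t ∈ Icc 0 T, dft n F x0 u z t = 0
  uniq : ∀ (u' : ℝ → H) (z' : ℝ → K), LH W m T n F x0 u' z' →
    (∀ t ∈ Icc 0 T, u' t = u t) ∧ z' =ᵐ[volume.restrict (Ioc 0 T)] z
  stable : ∀ ε : ℝ, 0 < ε → ∃ δ : ℝ, 0 < δ ∧ ∀ (n' : ℝ → ℝ) (F' : ℝ → K) (x' : H) (u' : ℝ → H)
    (z' : ℝ → K), Coef ν T n' F' → LH W m T n' F' x' u' z' → ‖x' - x0‖ ≤ δ →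
    ∫ s in Ioc 0 T, ‖F' s - F s‖ ^ 2 ≤ δ → ∫ s in Ioc 0 T, ‖n' s - n s‖ ^ 2 ≤ δ →
    (∀ t ∈ Icc 0 T, ‖u' t - u t‖ ≤ ε) ∧ ∫ s in Ioc 0 T, ‖z' s - z s‖ ^ 2 ≤ ε ∧
    ∀ t ∈ Icc 0 T, dft n' F' x' u' z' t ≤ ε

section core

variable {n : ℝ → ℝ} {F : ℝ → K} {x0 : H}

theorem core (Fr : Frame W m C) (hν : 0 < ν) (hT : 0 < T) (Co : Coef ν T n F)
    (hS : ∀ k : ℕ, ∃ (nb : ℝ → ℝ) (Fb : ℝ → K) (xb0 : H) (ub : ℝ → H) (zb : ℝ → K)
      (ub1 : ℝ → H) (zb1 : ℝ → K) (Z : ℝ), St W m T nb Fb xb0 ub zb ub1 zb1 Z ∧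
      (∀ t ∈ Icc 0 T, ν ≤ nb t) ∧ 1 ≤ Z ∧
      stc C ν T Z * gap ν T Z n nb F Fb x0 xb0 < 1 / ((k : ℝ) + 1)) :
    ∃ (u : ℝ → H) (z : ℝ → K), WP W m ν T n F x0 u z := by
  choose nn FF xx uu zz uu1 zz1 ZZ S hlow hZ hgap using hS
  have hstc : ∀ k, 2 ≤ stc C ν T (ZZ k) := fun k => two_le_stc hν hT
  have hCo : ∀ k, Coef ν T (nn k) (FF k) := fun k => st_coef (hlow k) (S k)
  have hg0 : ∀ k, 0 ≤ gap ν T (ZZ k) n (nn k) F (FF k) x0 (xx k) := fun k => gap_nonneg hν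
  have hg1 : ∀ k, gap ν T (ZZ k) n (nn k) F (FF k) x0 (xx k) ≤ 1 / ((k : ℝ) + 1) := by
    intro k
    have h1 := hstc k
    have h2 := hg0 k
    have h3 := hgap k
    nlinarith
  have hinv : Tendsto (fun k : ℕ => 1 / ((k : ℝ) + 1)) atTop (𝓝 0) :=
    tendsto_one_div_add_atTop_nhds_zero_nat
  have hgt : Tendsto (fun k => gap ν T (ZZ k) n (nn k) F (FF k) x0 (xx k)) atTop (𝓝 0) :=
    squeeze_zero hg0 hg1 hinv
  have hν2 : 0 < 2 / ν := by positivity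
  have hge : ∀ k, gap ν T (ZZ k) n (nn k) F (FF k) x0 (xx k) = ‖x0 - xx k‖ ^ 2 / 2
      + 2 / ν * (∫ s in Ioc 0 T, ‖F s - FF k s‖ ^ 2)
      + 2 / ν * (ZZ k) ^ 2 * (∫ s in Ioc 0 T, ‖n s - nn k s‖ ^ 2) := fun k =>
    gap_eq Co.F2 (hCo k).F2 Co.n2 (hCo k).n2
  have hI1 : ∀ k, 0 ≤ ∫ s in Ioc 0 T, ‖F s - FF k s‖ ^ 2 := fun k =>
    integral_nonneg fun s => by positivity
  have hI2 : ∀ k, 0 ≤ ∫ s in Ioc 0 T, ‖n s - nn k s‖ ^ 2 := fun k =>
    integral_nonneg fun s => by positivity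
  -- convergence of the data
  have hx : Tendsto xx atTop (𝓝 x0) := by
    rw [tendsto_iff_norm_sub_tendsto_zero]
    have h1 : Tendsto (fun k => Real.sqrt (2 * gap ν T (ZZ k) n (nn k) F (FF k) x0 (xx k)))
        atTop (𝓝 (Real.sqrt (2 * 0))) :=
      (Real.continuous_sqrt.tendsto _).comp (hgt.const_mul 2)
    rw [mul_zero, Real.sqrt_zero] at h1
    refine squeeze_zero (fun k => norm_nonneg _) (fun k => ?_) h1
    refine Real.le_sqrt_of_sq_le ?_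
    rw [hge k, norm_sub_rev]
    have a1 := hI1 k
    have a2 := hI2 k
    have a3 : 0 ≤ 2 / ν * (∫ s in Ioc 0 T, ‖F s - FF k s‖ ^ 2) := by positivity
    have a4 : 0 ≤ 2 / ν * (ZZ k) ^ 2 * (∫ s in Ioc 0 T, ‖n s - nn k s‖ ^ 2) := by positivity
    linarith
  have hF : Tendsto (fun k => ∫ s in Ioc 0 T, ‖FF k s - F s‖ ^ 2) atTop (𝓝 0) := by
    have h1 := hgt.const_mul (ν / 2)
    rw [mul_zero] at h1
    refine squeeze_zero (fun k => integral_nonneg fun s => by positivity) (fun k => ?_) h1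
    rw [hge k]
    have e : ∫ s in Ioc 0 T, ‖FF k s - F s‖ ^ 2 = ∫ s in Ioc 0 T, ‖F s - FF k s‖ ^ 2 := by
      refine integral_congr_ae (Eventually.of_forall fun s => ?_)
      simp only [norm_sub_rev]
    rw [e]
    have a1 := hI1 k
    have a2 := hI2 k
    have a3 : 0 ≤ ν / 2 * (‖x0 - xx k‖ ^ 2 / 2) := by positivity
    have a4 : 0 ≤ ν / 2 * (2 / ν * (ZZ k) ^ 2 * (∫ s in Ioc 0 T, ‖n s - nn k s‖ ^ 2)) := by
      positivity
    have a5 : ν / 2 * (2 / ν * (∫ s in Ioc 0 T, ‖F s - FF k s‖ ^ 2))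
        = ∫ s in Ioc 0 T, ‖F s - FF k s‖ ^ 2 := by field_simp
    linarith
  have hn : Tendsto (fun k => ∫ s in Ioc 0 T, ‖nn k s - n s‖ ^ 2) atTop (𝓝 0) := by
    have h1 := hgt.const_mul (ν / 2)
    rw [mul_zero] at h1
    refine squeeze_zero (fun k => integral_nonneg fun s => by positivity) (fun k => ?_) h1
    rw [hge k]
    have e : ∫ s in Ioc 0 T, ‖nn k s - n s‖ ^ 2 = ∫ s in Ioc 0 T, ‖n s - nn k s‖ ^ 2 := by
      refine integral_congr_ae (Eventually.of_forall fun s => ?_)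
      simp only [norm_sub_rev]
    rw [e]
    have a1 := hI1 k
    have a2 := hI2 k
    have a3 : 0 ≤ ν / 2 * (‖x0 - xx k‖ ^ 2 / 2) := by positivity
    have a4 : 0 ≤ ν / 2 * (2 / ν * (∫ s in Ioc 0 T, ‖F s - FF k s‖ ^ 2)) := by
      positivity
    have a5 : ν / 2 * (2 / ν * (ZZ k) ^ 2 * (∫ s in Ioc 0 T, ‖n s - nn k s‖ ^ 2))
        = (ZZ k) ^ 2 * ∫ s in Ioc 0 T, ‖n s - nn k s‖ ^ 2 := by field_simp
    have a6 : 1 ≤ (ZZ k) ^ 2 := one_le_pow₀ (hZ k)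
    nlinarith
  -- the strong solutions form a Cauchy sequence
  have hgk : ∀ k, Tendsto (fun i => gap ν T (ZZ k) (nn i) (nn k) (FF i) (FF k) (xx i) (xx k))
      atTop (𝓝 (gap ν T (ZZ k) n (nn k) F (FF k) x0 (xx k))) := by
    intro k
    rw [hge k]
    have e : ∀ i, gap ν T (ZZ k) (nn i) (nn k) (FF i) (FF k) (xx i) (xx k)
        = ‖xx i - xx k‖ ^ 2 / 2 + 2 / ν * (∫ s in Ioc 0 T, ‖FF i s - FF k s‖ ^ 2)
          + 2 / ν * (ZZ k) ^ 2 * (∫ s in Ioc 0 T, ‖nn i s - nn k s‖ ^ 2) := fun i =>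
      gap_eq (hCo i).F2 (hCo k).F2 (hCo i).n2 (hCo k).n2
    simp_rw [e]
    refine Tendsto.add (Tendsto.add ?_ ?_) ?_
    · exact (((hx.sub_const _).norm).pow 2).div_const 2
    · exact (tend_sq (fun i => (hCo i).F2) Co.F2 (hCo k).F2 hF).const_mul _
    · exact (tend_sq (fun i => (hCo i).n2) Co.n2 (hCo k).n2 hn).const_mul _
  have hnear : ∀ k, ∀ᶠ i in atTop, (∀ t ∈ Icc 0 T, ‖uu i t - uu k t‖ ^ 2 ≤ 1 / ((k : ℝ) + 1)) ∧
      ∫ s in Ioc 0 T, ‖zz i s - zz k s‖ ^ 2 ≤ 1 / ((k : ℝ) + 1) := by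
    intro k
    have h1 : Tendsto (fun i => stc C ν T (ZZ k)
        * gap ν T (ZZ k) (nn i) (nn k) (FF i) (FF k) (xx i) (xx k)) atTop
        (𝓝 (stc C ν T (ZZ k) * gap ν T (ZZ k) n (nn k) F (FF k) x0 (xx k))) :=
      (hgk k).const_mul _
    filter_upwards [h1.eventually_lt_const (hgap k)] with i hi
    obtain ⟨b1, b2, -⟩ := stab Fr hν hT (hCo i) (st_lh Fr (S i)) (S k)
    exact ⟨fun t ht => (b1 t ht).trans hi.le, b2.trans hi.le⟩
  have hu : ∀ ε > 0, ∃ N, ∀ j ≥ N, ∀ k ≥ N, ∀ t ∈ Icc 0 T, ‖uu j t - uu k t‖ ≤ ε := by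
    intro ε hε
    obtain ⟨k0, hk0⟩ := (hinv.eventually_lt_const (by positivity : (0 : ℝ) < (ε / 2) ^ 2)).exists
    obtain ⟨N, hN⟩ := eventually_atTop.mp (hnear k0)
    have hc : ∀ j ≥ N, ∀ t ∈ Icc 0 T, ‖uu j t - uu k0 t‖ ≤ ε / 2 := by
      intro j hj t ht
      have h1 := ((hN j hj).1 t ht).trans hk0.le
      exact (pow_le_pow_iff_left₀ (norm_nonneg _) (by positivity) (by norm_num)).mp h1
    refine ⟨N, fun j hj k hk t ht => ?_⟩
    have h1 := hc j hj t ht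
    have h2 := hc k hk t ht
    calc ‖uu j t - uu k t‖ = ‖(uu j t - uu k0 t) - (uu k t - uu k0 t)‖ := by congr 1; abel
      _ ≤ ‖uu j t - uu k0 t‖ + ‖uu k t - uu k0 t‖ := norm_sub_le _ _
      _ ≤ ε := by linarith
  have hz : ∀ ε > 0, ∃ N, ∀ j ≥ N, ∀ k ≥ N, ∫ s in Ioc 0 T, ‖zz j s - zz k s‖ ^ 2 ≤ ε := by
    intro ε hε
    obtain ⟨k0, hk0⟩ := (hinv.eventually_lt_const (by positivity : (0 : ℝ) < ε / 4)).exists
    obtain ⟨N, hN⟩ := eventually_atTop.mp (hnear k0)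
    refine ⟨N, fun j hj k hk => ?_⟩
    have mz : ∀ i, MemLp (zz i) 2 (volume.restrict (Ioc 0 T)) := fun i => mem_cont (S i).zc
    have h1 := (hN j hj).2
    have h2 := (hN k hk).2
    have h3 : ∫ s in Ioc 0 T, ‖zz j s - zz k s‖ ^ 2
        ≤ ∫ s in Ioc 0 T, (2 * ‖zz j s - zz k0 s‖ ^ 2 + 2 * ‖zz k s - zz k0 s‖ ^ 2) := by
      refine integral_mono (sq_int (mz j) (mz k))
        (((sq_int (mz j) (mz k0)).const_mul 2).add ((sq_int (mz k) (mz k0)).const_mul 2)) ?_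
      intro s
      show ‖zz j s - zz k s‖ ^ 2 ≤ 2 * ‖zz j s - zz k0 s‖ ^ 2 + 2 * ‖zz k s - zz k0 s‖ ^ 2
      have h4 : ‖zz j s - zz k s‖ ≤ ‖zz j s - zz k0 s‖ + ‖zz k s - zz k0 s‖ := by
        calc ‖zz j s - zz k s‖ = ‖(zz j s - zz k0 s) - (zz k s - zz k0 s)‖ := by congr 1; abel
          _ ≤ _ := norm_sub_le _ _
      nlinarith [norm_nonneg (zz j s - zz k s), norm_nonneg (zz j s - zz k0 s),
        norm_nonneg (zz k s - zz k0 s), sq_nonneg (‖zz j s - zz k0 s‖ - ‖zz k s - zz k0 s‖)]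
    rw [integral_add ((sq_int (mz j) (mz k0)).const_mul 2) ((sq_int (mz k) (mz k0)).const_mul 2),
      integral_const_mul, integral_const_mul] at h3
    linarith
  obtain ⟨u, z, L, hcl, huc, -, -⟩ := limit Fr hν hT S
    (fun k t ht => hν.le.trans (hlow k t ht)) Co hn hF hx hu hz
  refine ⟨u, z, L, hcl, huc, ?_, ?_, ?_⟩
  · intro t ht
    refine le_antisymm ?_ ?_
    · refine ge_of_tendsto' hinv fun k => ?_
      obtain ⟨-, -, b3⟩ := stab Fr hν hT Co L (S k)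
      exact (b3 t ht).trans (hgap k).le
    · unfold dft
      linarith [L.energy t ht]
  · intro u' z' L'
    constructor
    · intro t ht
      have h1 : ‖u' t - u t‖ ^ 2 ≤ 0 := by
        have h2 : Tendsto (fun k : ℕ => 4 * (1 / ((k : ℝ) + 1))) atTop (𝓝 (4 * 0)) :=
          hinv.const_mul 4
        rw [mul_zero] at h2
        refine ge_of_tendsto' h2 fun k => ?_
        obtain ⟨b1, -, -⟩ := stab Fr hν hT Co L (S k)
        obtain ⟨b1', -, -⟩ := stab Fr hν hT Co L' (S k)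
        have h3 := (b1 t ht).trans (hgap k).le
        have h4 := (b1' t ht).trans (hgap k).le
        have h5 : ‖u' t - u t‖ ≤ ‖u' t - uu k t‖ + ‖u t - uu k t‖ := by
          calc ‖u' t - u t‖ = ‖(u' t - uu k t) - (u t - uu k t)‖ := by congr 1; abel
            _ ≤ _ := norm_sub_le _ _
        nlinarith [norm_nonneg (u' t - u t), norm_nonneg (u' t - uu k t),
          norm_nonneg (u t - uu k t), sq_nonneg (‖u' t - uu k t‖ - ‖u t - uu k t‖)]
      have h2 : ‖u' t - u t‖ = 0 := by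
        have := sq_nonneg ‖u' t - u t‖
        exact pow_eq_zero_iff (two_ne_zero) |>.mp (le_antisymm h1 this)
      exact sub_eq_zero.mp (norm_eq_zero.mp h2)
    · have h1 : ∫ s in Ioc 0 T, ‖z' s - z s‖ ^ 2 = 0 := by
        refine le_antisymm ?_ (integral_nonneg fun s => by positivity)
        have h2 : Tendsto (fun k : ℕ => 4 * (1 / ((k : ℝ) + 1))) atTop (𝓝 (4 * 0)) :=
          hinv.const_mul 4
        rw [mul_zero] at h2
        refine ge_of_tendsto' h2 fun k => ?_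
        obtain ⟨-, b2, -⟩ := stab Fr hν hT Co L (S k)
        obtain ⟨-, b2', -⟩ := stab Fr hν hT Co L' (S k)
        have h3 := b2.trans (hgap k).le
        have h4 := b2'.trans (hgap k).le
        have mk : MemLp (zz k) 2 (volume.restrict (Ioc 0 T)) := mem_cont (S k).zc
        have h5 : ∫ s in Ioc 0 T, ‖z' s - z s‖ ^ 2
            ≤ ∫ s in Ioc 0 T, (2 * ‖z' s - zz k s‖ ^ 2 + 2 * ‖z s - zz k s‖ ^ 2) := by
          refine integral_mono (sq_int L'.z2 L.z2)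
            (((sq_int L'.z2 mk).const_mul 2).add ((sq_int L.z2 mk).const_mul 2)) ?_
          intro s
          show ‖z' s - z s‖ ^ 2 ≤ 2 * ‖z' s - zz k s‖ ^ 2 + 2 * ‖z s - zz k s‖ ^ 2
          have h6 : ‖z' s - z s‖ ≤ ‖z' s - zz k s‖ + ‖z s - zz k s‖ := by
            calc ‖z' s - z s‖ = ‖(z' s - zz k s) - (z s - zz k s)‖ := by congr 1; abel
              _ ≤ _ := norm_sub_le _ _
          nlinarith [norm_nonneg (z' s - z s), norm_nonneg (z' s - zz k s),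
            norm_nonneg (z s - zz k s), sq_nonneg (‖z' s - zz k s‖ - ‖z s - zz k s‖)]
        rw [integral_add ((sq_int L'.z2 mk).const_mul 2) ((sq_int L.z2 mk).const_mul 2),
          integral_const_mul, integral_const_mul] at h5
        linarith
      have h2 := (integral_eq_zero_iff_of_nonneg (fun s => by positivity)
        (sq_int L'.z2 L.z2)).mp h1
      filter_upwards [h2] with s hs
      have h3 : ‖z' s - z s‖ ^ 2 = 0 := hs
      exact sub_eq_zero.mp (norm_eq_zero.mp (pow_eq_zero_iff (two_ne_zero) |>.mp h3))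
  · intro ε hε
    obtain ⟨k, hk1, hk2⟩ := ((hinv.eventually_lt_const
      (by positivity : (0 : ℝ) < (ε / 2) ^ 2)).and (hinv.eventually_lt_const
      (by positivity : (0 : ℝ) < ε / 4))).exists
    obtain ⟨δ, hδ, hd⟩ := gap_near Co.F2 (hCo k).F2 Co.n2 (hCo k).n2 (hgap k)
    refine ⟨δ, hδ, fun n' F' x' u' z' Co' L' e1 e2 e3 => ?_⟩
    have hg' := hd n' F' x' Co'.n2 Co'.F2 e1 e2 e3
    obtain ⟨b1, b2, -⟩ := stab Fr hν hT Co L (S k)
    obtain ⟨b1', b2', b3'⟩ := stab Fr hν hT Co' L' (S k)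
    refine ⟨fun t ht => ?_, ?_, fun t ht => ?_⟩
    · have h3 := ((b1 t ht).trans (hgap k).le).trans hk1.le
      have h4 := ((b1' t ht).trans hg'.le).trans hk1.le
      have h6 := (pow_le_pow_iff_left₀ (norm_nonneg _) (by positivity) (by norm_num)).mp h3
      have h7 := (pow_le_pow_iff_left₀ (norm_nonneg _) (by positivity) (by norm_num)).mp h4
      calc ‖u' t - u t‖ = ‖(u' t - uu k t) - (u t - uu k t)‖ := by congr 1; abel
        _ ≤ ‖u' t - uu k t‖ + ‖u t - uu k t‖ := norm_sub_le _ _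
        _ ≤ ε := by linarith
    · have h3 := (b2.trans (hgap k).le).trans hk2.le
      have h4 := (b2'.trans hg'.le).trans hk2.le
      have mk : MemLp (zz k) 2 (volume.restrict (Ioc 0 T)) := mem_cont (S k).zc
      have h5 : ∫ s in Ioc 0 T, ‖z' s - z s‖ ^ 2
          ≤ ∫ s in Ioc 0 T, (2 * ‖z' s - zz k s‖ ^ 2 + 2 * ‖z s - zz k s‖ ^ 2) := by
        refine integral_mono (sq_int L'.z2 L.z2)
          (((sq_int L'.z2 mk).const_mul 2).add ((sq_int L.z2 mk).const_mul 2)) ?_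
        intro s
        show ‖z' s - z s‖ ^ 2 ≤ 2 * ‖z' s - zz k s‖ ^ 2 + 2 * ‖z s - zz k s‖ ^ 2
        have h6 : ‖z' s - z s‖ ≤ ‖z' s - zz k s‖ + ‖z s - zz k s‖ := by
          calc ‖z' s - z s‖ = ‖(z' s - zz k s) - (z s - zz k s)‖ := by congr 1; abel
            _ ≤ _ := norm_sub_le _ _
        nlinarith [norm_nonneg (z' s - z s), norm_nonneg (z' s - zz k s),
          norm_nonneg (z s - zz k s), sq_nonneg (‖z' s - zz k s‖ - ‖z s - zz k s‖)]
      rw [integral_add ((sq_int L'.z2 mk).const_mul 2) ((sq_int L.z2 mk).const_mul 2),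
        integral_const_mul, integral_const_mul] at h5
      linarith
    · exact ((b3' t ht).trans hg'.le).trans (by linarith)

end core

end Pool.Agent.H319R3.GV
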