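import Mathlib
import Pool.Agent.H319R3.GV.Core

/-!
Generic viscosities: for fixed smooth data and a generic nonnegative perturbation in `L^p(0,∞)` of
the viscosity there is exactly one Leray-Hopf solution.
-/

set_option linter.unusedSectionVars false

open MeasureTheory Set Filter Topology Metric
open scoped InnerProductSpace NNReal ENNReal

namespace Pool.Agent.H319R3.GV

open H772R2.NSR (Frame grad_unique prim_cont)
open H772R2.NSG

/-- The nonnegative functions in `L^p(0,∞)`. -/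
abbrev XX (p : ℝ≥0∞) : Type :=
  {f : Lp ℝ p (volume.restrict (Ioi (0 : ℝ)) : Measure ℝ) //
    ∀ᵐ t ∂(volume.restrict (Ioi (0 : ℝ))), 0 ≤ f t}

section

variable {p : ℝ≥0∞} [Fact (1 ≤ p)]

instance XX.complete : CompleteSpace (XX p) := by
  have h : IsClosed {f : Lp ℝ p (volume.restrict (Ioi (0 : ℝ)) : Measure ℝ) |
      ∀ᵐ t ∂(volume.restrict (Ioi (0 : ℝ))), 0 ≤ f t} := by
    have e : {f : Lp ℝ p (volume.restrict (Ioi (0 : ℝ)) : Measure ℝ) |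
        ∀ᵐ t ∂(volume.restrict (Ioi (0 : ℝ))), 0 ≤ f t} = Ici 0 := by
      ext f
      exact Lp.coeFn_nonneg f
    rw [e]
    exact isClosed_Ici
  exact h.completeSpace_coe

theorem le_mu (T : ℝ) : (volume.restrict (Ioc 0 T) : Measure ℝ) ≤ volume.restrict (Ioi (0 : ℝ)) :=
  Measure.restrict_mono Ioc_subset_Ioi_self le_rfl

theorem memLp_p (f : Lp ℝ p (volume.restrict (Ioi (0 : ℝ)) : Measure ℝ)) (T : ℝ) :
    MemLp f p (volume.restrict (Ioc 0 T)) := (Lp.memLp f).mono_measure (le_mu T)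

theorem memLp_2 (hp2 : 2 ≤ p) (f : Lp ℝ p (volume.restrict (Ioi (0 : ℝ)) : Measure ℝ)) (T : ℝ) :
    MemLp f 2 (volume.restrict (Ioc 0 T)) := (memLp_p f T).mono_exponent hp2

/-- restriction to `(0,T]`. -/
noncomputable def Phi (hp2 : 2 ≤ p) (T : ℝ)
    (f : Lp ℝ p (volume.restrict (Ioi (0 : ℝ)) : Measure ℝ)) :
    Lp ℝ 2 (volume.restrict (Ioc 0 T) : Measure ℝ) := (memLp_2 hp2 f T).toLp f

theorem phi_cont (hp2 : 2 ≤ p) (T : ℝ) : Continuous (Phi (p := p) hp2 T) := by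
  set κ : ℝ≥0∞ := (volume.restrict (Ioc 0 T) : Measure ℝ) univ
    ^ (1 / (2 : ℝ≥0∞).toReal - 1 / p.toReal) with hκ
  have hκtop : κ ≠ ⊤ := by
    rw [hκ]
    refine ENNReal.rpow_ne_top_of_nonneg ?_ (measure_ne_top _ _)
    rcases eq_or_ne p ⊤ with h | h
    · rw [h]; simp
    · have h1 : (2 : ℝ≥0∞).toReal ≤ p.toReal := ENNReal.toReal_mono h hp2
      have := one_div_le_one_div_of_le (by norm_num : (0 : ℝ) < (2 : ℝ≥0∞).toReal) h1
      linarith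
  have hl : LipschitzWith κ.toNNReal (Phi (p := p) hp2 T) := by
    intro f g
    rw [edist_eq_enorm_sub, edist_eq_enorm_sub]
    unfold Phi
    rw [← MemLp.toLp_sub, Lp.enorm_toLp, Lp.enorm_def, ENNReal.coe_toNNReal hκtop]
    have h1 : eLpNorm (⇑f - ⇑g) 2 (volume.restrict (Ioc 0 T))
        ≤ eLpNorm (⇑f - ⇑g) p (volume.restrict (Ioc 0 T)) * κ :=
      eLpNorm_le_eLpNorm_mul_rpow_measure_univ hp2
        ((memLp_2 hp2 f T).sub (memLp_2 hp2 g T)).aestronglyMeasurable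
    have h2 : eLpNorm (⇑f - ⇑g) p (volume.restrict (Ioc 0 T))
        ≤ eLpNorm (⇑(f - g)) p (volume.restrict (Ioi (0 : ℝ))) := by
      rw [eLpNorm_congr_ae (Lp.coeFn_sub f g)]
      exact eLpNorm_mono_measure _ (le_mu T)
    rw [mul_comm]
    exact h1.trans (by gcongr)
  exact hl.continuous

theorem phi_sub (hp2 : 2 ≤ p) (T ν : ℝ) (f : Lp ℝ p (volume.restrict (Ioi (0 : ℝ)) : Measure ℝ))
    {nb : ℝ → ℝ} (hnb : MemLp (fun s => nb s - ν) 2 (volume.restrict (Ioc 0 T))) :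
    ∫ s in Ioc 0 T, ‖(ν + f s) - nb s‖ ^ 2 = ‖Phi hp2 T f - hnb.toLp _‖ ^ 2 := by
  unfold Phi
  rw [toLp_sub_norm_sq (memLp_2 hp2 f T) hnb]
  refine integral_congr_ae (Eventually.of_forall fun s => ?_)
  show ‖(ν + f s) - nb s‖ ^ 2 = ‖f s - (nb s - ν)‖ ^ 2
  congr 2
  ring

end

variable {H K : Type*} [NormedAddCommGroup H] [InnerProductSpace ℝ H] [CompleteSpace H]
  [NormedAddCommGroup K] [InnerProductSpace ℝ K] [CompleteSpace K]

variable {W : Submodule ℝ (H × K)} {m : H → K} {C : ℝ} {ν T : ℝ}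
variable {p : ℝ≥0∞} [Fact (1 ≤ p)]

/-- The perturbations close to a strongly solvable one. -/
def UU (W : Submodule ℝ (H × K)) (m : H → K) (C ν T : ℝ) (F : ℝ → K) (x0 : H) (c : ℝ) :
    Set (XX p) :=
  {f | ∃ (nb : ℝ → ℝ) (ub : ℝ → H) (zb : ℝ → K) (ub1 : ℝ → H) (zb1 : ℝ → K) (Z : ℝ),
    St W m T nb F x0 ub zb ub1 zb1 Z ∧ (∀ t ∈ Icc 0 T, ν ≤ nb t) ∧ 1 ≤ Z ∧
    stc C ν T Z * gap ν T Z (fun s => ν + f.1 s) nb F F x0 x0 < c}

theorem memLp_n (f : XX p) (T ν : ℝ) :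
    MemLp (fun s => ν + f.1 s) p (volume.restrict (Ioc 0 T)) :=
  (memLp_const ν).add (memLp_p f.1 T)

theorem low_n (f : XX p) (T ν : ℝ) : ∀ᵐ s ∂(volume.restrict (Ioc 0 T)), ν ≤ ν + f.1 s := by
  filter_upwards [ae_mono (le_mu T) f.2] with s hs
  linarith

theorem coef_n (hp2 : 2 ≤ p) (f : XX p) {F : ℝ → K} (hF : ContinuousOn F (Icc 0 T)) :
    Coef ν T (fun s => ν + f.1 s) F :=
  ⟨(memLp_n f T ν).mono_exponent hp2, low_n f T ν, mem_cont hF⟩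

theorem uu_open (hp2 : 2 ≤ p) {F : ℝ → K} {x0 : H} {c : ℝ} :
    IsOpen (UU (p := p) W m C ν T F x0 c) := by
  rw [isOpen_iff_mem_nhds]
  rintro f ⟨nb, ub, zb, ub1, zb1, Z, S, h1, h2, h3⟩
  have hnb : MemLp (fun s => nb s - ν) 2 (volume.restrict (Ioc 0 T)) :=
    mem_cont (S.nc.sub continuousOn_const)
  have hg : ∀ g : XX p, gap ν T Z (fun s => ν + g.1 s) nb F F x0 x0
      = 2 / ν * Z ^ 2 * ‖Phi hp2 T g.1 - hnb.toLp _‖ ^ 2 := by
    intro g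
    have hF := mem_cont (p := 2) S.Fc
    rw [gap_eq hF hF ((memLp_n g T ν).mono_exponent hp2) (mem_cont S.nc), phi_sub hp2 T ν g.1 hnb]
    simp
  have hc : Continuous fun g : XX p => stc C ν T Z * gap ν T Z (fun s => ν + g.1 s) nb F F x0 x0 := by
    simp_rw [hg]
    have h5 : Continuous fun g : XX p => Phi hp2 T g.1 :=
      (phi_cont (p := p) hp2 T).comp continuous_subtype_val
    exact continuous_const.mul (continuous_const.mul (((h5.sub continuous_const).norm).pow 2))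
  have ho : IsOpen {g : XX p | stc C ν T Z * gap ν T Z (fun s => ν + g.1 s) nb F F x0 x0 < c} :=
    isOpen_lt hc continuous_const
  refine mem_of_superset (ho.mem_nhds h3) ?_
  intro g hg
  exact ⟨nb, ub, zb, ub1, zb1, Z, S, h1, h2, hg⟩

theorem uu_dense (Fr : Frame W m C) (hν : 0 < ν) (hT : 0 < T)
    (hcomp : ∀ R : ℝ, TotallyBounded {v : H | ∃ z, (v, z) ∈ W ∧ ‖z‖ ≤ R})
    {F F1 : ℝ → K} (hF1 : MemLp F1 2 (volume.restrict (Ioc 0 T)))
    (hF : ∀ a b, 0 ≤ a → a ≤ b → b ≤ T → F b - F a = ∫ s in a..b, F1 s)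
    {x0 : H} {z0 : K} (h0 : (x0, z0) ∈ W) {g0 : H}
    (hc : ∀ p ∈ W, ⟪F 0 - ν • z0 + m x0, p.2⟫_ℝ = ⟪g0, p.1⟫_ℝ)
    (hp5 : p ≤ 5) (hp2 : 2 ≤ p) {c : ℝ} (hc0 : 0 < c) :
    Dense (UU (p := p) W m C ν T F x0 c) := by
  rw [Metric.dense_iff]
  intro f r hr
  have hp1 : 1 ≤ p := Fact.out
  obtain ⟨nb, ub, ub1, zb, zb1, Z, S, hlow, hnear⟩ := strong_near Fr hν hT hcomp hF1 hF h0
    (le_refl ν) hc hp1 hp5 (memLp_n f T ν) (low_n f T ν) (ε := r / 2) (by positivity)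
  -- the perturbation
  set h : ℝ → ℝ := (Ioc 0 T).indicator (fun s => nb s - (ν + f.1 s)) with hh
  have hm0 : MemLp (fun s => nb s - (ν + f.1 s)) p (volume.restrict (Ioc 0 T)) :=
    (mem_cont S.nc).sub (memLp_n f T ν)
  have hmv : MemLp h p volume := by
    rw [hh, memLp_indicator_iff_restrict measurableSet_Ioc]
    exact hm0
  have hm : MemLp h p (volume.restrict (Ioi (0 : ℝ))) := hmv.mono_measure Measure.restrict_le_self
  let g : Lp ℝ p (volume.restrict (Ioi (0 : ℝ)) : Measure ℝ) := f.1 + hm.toLp h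
  have hgc : ∀ᵐ s ∂(volume.restrict (Ioi (0 : ℝ))), g s = f.1 s + h s := by
    filter_upwards [Lp.coeFn_add f.1 (hm.toLp h), hm.coeFn_toLp] with s h1 h2
    show (f.1 + hm.toLp h : Lp ℝ p (volume.restrict (Ioi (0 : ℝ)) : Measure ℝ)) s = _
    rw [h1, Pi.add_apply, h2]
  have hgT : ∀ᵐ s ∂(volume.restrict (Ioc 0 T)), ν + g s = nb s := by
    filter_upwards [ae_mono (le_mu T) hgc, ae_restrict_mem measurableSet_Ioc] with s h1 h2
    rw [h1, hh, indicator_of_mem h2]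
    ring
  have hg0 : ∀ᵐ s ∂(volume.restrict (Ioi (0 : ℝ))), 0 ≤ g s := by
    filter_upwards [hgc, f.2] with s h1 h2
    rw [h1, hh]
    by_cases hs : s ∈ Ioc 0 T
    · rw [indicator_of_mem hs]
      have := hlow s (Ioc_subset_Icc_self hs)
      linarith
    · rw [indicator_of_notMem hs]
      linarith
  refine ⟨⟨g, hg0⟩, ?_, ?_⟩
  · rw [mem_ball, Subtype.dist_eq, dist_eq_norm]
    show ‖g - f.1‖ < r
    have e1 : g - f.1 = hm.toLp h := by show f.1 + hm.toLp h - f.1 = _; abel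
    rw [e1, Lp.norm_toLp]
    have e2 : eLpNorm h p (volume.restrict (Ioi (0 : ℝ))) ≤ ENNReal.ofReal (r / 2) := by
      refine (eLpNorm_mono_measure h Measure.restrict_le_self).trans ?_
      rw [hh, eLpNorm_indicator_eq_eLpNorm_restrict measurableSet_Ioc]
      exact hnear
    calc (eLpNorm h p (volume.restrict (Ioi (0 : ℝ)))).toReal ≤ r / 2 :=
          ENNReal.toReal_le_of_le_ofReal (by positivity) e2
      _ < r := by linarith
  · refine ⟨nb, ub, zb, ub1, zb1, max Z 1, st_bound (le_max_left _ _) S, hlow, le_max_right _ _, ?_⟩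
    have hFm := mem_cont (p := 2) S.Fc
    have e : gap ν T (max Z 1) (fun s => ν + g s) nb F F x0 x0 = 0 := by
      rw [gap_eq hFm hFm ((memLp_n ⟨g, hg0⟩ T ν).mono_exponent hp2) (mem_cont S.nc)]
      have e3 : ∫ s in Ioc 0 T, ‖(ν + g s) - nb s‖ ^ 2 = 0 := by
        refine integral_eq_zero_of_ae ?_
        filter_upwards [hgT] with s hs
        show ‖(ν + g s) - nb s‖ ^ 2 = 0
        rw [hs]; simp
      rw [e3]
      simp
    show stc C ν T (max Z 1) * gap ν T (max Z 1) (fun s => ν + g s) nb F F x0 x0 < c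
    rw [e, mul_zero]
    exact hc0

/-- **Generic viscosities.** -/
theorem generic (Fr : Frame W m C) (hν : 0 < ν)
    (hcomp : ∀ R : ℝ, TotallyBounded {v : H | ∃ z, (v, z) ∈ W ∧ ‖z‖ ≤ R})
    {F F1 : ℝ → K} (hF1 : ∀ T, 0 < T → MemLp F1 2 (volume.restrict (Ioc 0 T)))
    (hF : ∀ a b, 0 ≤ a → a ≤ b → F b - F a = ∫ s in a..b, F1 s)
    {x0 : H} {z0 : K} (h0 : (x0, z0) ∈ W) {g0 : H}
    (hc : ∀ p ∈ W, ⟪F 0 - ν • z0 + m x0, p.2⟫_ℝ = ⟪g0, p.1⟫_ℝ)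
    (hp2 : 2 ≤ p) (hp5 : p ≤ 5) :
    ∃ R : Set (XX p), IsGδ R ∧ Dense R ∧ ∀ f ∈ R, ∀ T, 0 < T →
      ∃ (u : ℝ → H) (z : ℝ → K), WP W m ν T (fun s => ν + f.1 s) F x0 u z := by
  let R : Set (XX p) := ⋂ jk : ℕ × ℕ, UU (p := p) W m C ν ((jk.1 : ℝ) + 1) F x0
    (1 / ((jk.2 : ℝ) + 1))
  have ho : ∀ jk : ℕ × ℕ, IsOpen (UU (p := p) W m C ν ((jk.1 : ℝ) + 1) F x0
      (1 / ((jk.2 : ℝ) + 1))) := fun jk => uu_open hp2
  have hd : ∀ jk : ℕ × ℕ, Dense (UU (p := p) W m C ν ((jk.1 : ℝ) + 1) F x0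
      (1 / ((jk.2 : ℝ) + 1))) := fun jk =>
    uu_dense Fr hν (by positivity) hcomp (hF1 _ (by positivity))
      (fun a b ha hab _ => hF a b ha hab) h0 hc hp5 hp2 (by positivity)
  refine ⟨R, IsGδ.iInter_of_isOpen ho, dense_iInter_of_isOpen ho hd, ?_⟩
  intro f hf T hT
  have hTj : T ≤ ((⌈T⌉₊ : ℕ) : ℝ) + 1 := (Nat.le_ceil T).trans (by linarith)
  have hFc : ContinuousOn F (Icc 0 T) := prim_cont (hF1 T hT) fun a b ha hab _ => hF a b ha hab
  refine core Fr hν hT (coef_n hp2 f hFc) ?_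
  intro k
  have hfk : f ∈ UU (p := p) W m C ν (((⌈T⌉₊ : ℕ) : ℝ) + 1) F x0 (1 / ((k : ℝ) + 1)) :=
    mem_iInter.mp hf (⌈T⌉₊, k)
  obtain ⟨nb, ub, zb, ub1, zb1, Z, S, h1, h2, h3⟩ := hfk
  refine ⟨nb, F, x0, ub, zb, ub1, zb1, Z, st_mono hTj S, fun t ht => h1 t ⟨ht.1, ht.2.trans hTj⟩,
    h2, lt_of_le_of_lt ?_ h3⟩
  have hFm := mem_cont (p := 2) S.Fc
  have m1 := gap_mono (Z := Z) (x0 := x0) (xb0 := x0) hν hFm hFm
    ((memLp_n f (((⌈T⌉₊ : ℕ) : ℝ) + 1) ν).mono_exponent hp2) (mem_cont (p := 2) S.nc) hTj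
  have m2 := stc_mono (C := C) hν hT hTj (Z := Z)
  exact mul_le_mul m2 m1 (gap_nonneg hν) (stc_nonneg hν (hT.trans_le hTj))

end Pool.Agent.H319R3.GV
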