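import Mathlib
import Pool.Agent.H772R2.NS.Pub
import Pool.Agent.H772R2.NSR.PubR

/-!
Public definitions: Leray-Hopf solutions of the Navier-Stokes equations with a time dependent
viscosity, well-posedness in the class of Leray-Hopf solutions.
-/

open MeasureTheory Set
open scoped InnerProductSpace ENNReal ContDiff

namespace Pool.Agent.H319R3.GV.Pub

open H772R2.NS.Pub

/-- `u` is a Leray-Hopf weak solution on `[0,T]` of the Navier-Stokes equations in `Ω` with zero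
boundary values, viscosity `n(t)`, force `f(t)` given by `⟨f(t), φ⟩ = (F(t), ∇φ)` and initial
velocity `u0`, and `G` is its gradient:
* `u(t) ∈ V = H¹_{0,σ}(Ω)` with gradient `G(t)` for almost every `t`, `G ∈ L²(0,T; L²)` and
  `∫₀ᵀ n ‖G‖² < ∞`;
* the equations hold in the weak sense, integrated in time, for all divergence free test fields;
* the energy inequality holds at every `t ∈ [0,T]`. -/
structure IsLerayHopf (Ω : Set R3) (T : ℝ) (n : ℝ → ℝ) (F : ℝ → L2 Ω Mat) (u0 : L2 Ω R3)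
    (u : ℝ → L2 Ω R3) (G : ℝ → L2 Ω Mat) : Prop where
  init : u 0 = u0
  meas : AEStronglyMeasurable u (volume.restrict (Ioc 0 T))
  grad : ∀ᵐ t ∂(volume.restrict (Ioc 0 T)), (u t, G t) ∈ H1graph Ω
  gradL2 : MemLp G 2 (volume.restrict (Ioc 0 T))
  diss : Integrable (fun t => n t * ‖G t‖ ^ 2) (volume.restrict (Ioc 0 T))
  eqn : ∀ φ, IsTest Ω φ → ∀ t ∈ Icc 0 T,
    (∫ x in Ω, ⟪(u t).fn x, φ x⟫_ℝ) - (∫ x in Ω, ⟪u0.fn x, φ x⟫_ℝ)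
      = ∫ s in (0 : ℝ)..t, rhs (n s) (u s) (G s) (F s) φ
  energy : ∀ t ∈ Icc 0 T, ‖u t‖ ^ 2 / 2 + ∫ s in (0 : ℝ)..t, n s * ‖G s‖ ^ 2
    ≤ ‖u0‖ ^ 2 / 2 + ∫ s in (0 : ℝ)..t, ⟪F s, G s⟫_ℝ

/-- The energy defect: right-hand side minus left-hand side of the energy inequality. -/
noncomputable def defect {Ω : Set R3} (n : ℝ → ℝ) (F : ℝ → L2 Ω Mat) (u0 : L2 Ω R3)
    (u : ℝ → L2 Ω R3) (G : ℝ → L2 Ω Mat) (t : ℝ) : ℝ :=
  ‖u0‖ ^ 2 / 2 + (∫ s in (0 : ℝ)..t, ⟪F s, G s⟫_ℝ) - ‖u t‖ ^ 2 / 2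
    - ∫ s in (0 : ℝ)..t, n s * ‖G s‖ ^ 2

/-- Admissible coefficients: the viscosity `n ∈ L²(0,T)` is at least `ν` and `F ∈ L²(0,T; L²)`. -/
structure IsCoef {Ω : Set R3} (ν T : ℝ) (n : ℝ → ℝ) (F : ℝ → L2 Ω Mat) : Prop where
  visc : MemLp n 2 (volume.restrict (Ioc 0 T))
  low : ∀ᵐ t ∂(volume.restrict (Ioc 0 T)), ν ≤ n t
  force : MemLp F 2 (volume.restrict (Ioc 0 T))

/-- The data `(n', F', u0')` are `δ`-close to `(n, F, u0)` on `[0,T]`. -/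
structure DataNear {Ω : Set R3} (T δ : ℝ) (n : ℝ → ℝ) (F : ℝ → L2 Ω Mat) (u0 : L2 Ω R3)
    (n' : ℝ → ℝ) (F' : ℝ → L2 Ω Mat) (u0' : L2 Ω R3) : Prop where
  init : ‖u0' - u0‖ ≤ δ
  force : ∫ t in Ioc 0 T, ‖F' t - F t‖ ^ 2 ≤ δ
  visc : ∫ t in Ioc 0 T, |n' t - n t| ^ 2 ≤ δ

/-- `u'` is `ε`-close to `u` in `L^∞(0,T; L²) ∩ L²(0,T; V)`. -/
structure SolNear {Ω : Set R3} (T ε : ℝ) (u : ℝ → L2 Ω R3) (G : ℝ → L2 Ω Mat)
    (u' : ℝ → L2 Ω R3) (G' : ℝ → L2 Ω Mat) : Prop where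
  sup : ∀ t ∈ Icc 0 T, ‖u' t - u t‖ ≤ ε
  grad : ∫ t in Ioc 0 T, ‖G' t - G t‖ ^ 2 ≤ ε

/-- Every Leray-Hopf solution for nearby data (viscosity `≥ ν`, close in `L²(0,T)`, force in
`L²(0,T; L²)`, initial velocity in `L²`) is close to `u` in `L^∞(0,T; L²) ∩ L²(0,T; V)`, and its
energy defect is small. -/
def Stable (Ω : Set R3) (ν T : ℝ) (n : ℝ → ℝ) (F : ℝ → L2 Ω Mat) (u0 : L2 Ω R3)
    (u : ℝ → L2 Ω R3) (G : ℝ → L2 Ω Mat) : Prop :=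
  ∀ ε : ℝ, 0 < ε → ∃ δ : ℝ, 0 < δ ∧ ∀ (n' : ℝ → ℝ) (F' : ℝ → L2 Ω Mat)
    (u0' : L2 Ω R3) (u' : ℝ → L2 Ω R3) (G' : ℝ → L2 Ω Mat), IsCoef ν T n' F' →
    IsLerayHopf Ω T n' F' u0' u' G' → DataNear T δ n F u0 n' F' u0' →
    SolNear T ε u G u' G' ∧ ∀ t ∈ Icc 0 T, defect n' F' u0' u' G' t ≤ ε

/-- Hadamard well-posedness on `[0,T]` in the class of Leray-Hopf solutions, for the viscosity `n`,
the force `F` and the initial velocity `u0`, with solution `u`, `G = ∇u`: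
* `u` is a Leray-Hopf solution, continuous with values in `L²_σ`, with energy equality;
* it is the only Leray-Hopf solution;
* it depends continuously on the data. -/
structure WellPosed (Ω : Set R3) (ν T : ℝ) (n : ℝ → ℝ) (F : ℝ → L2 Ω Mat) (u0 : L2 Ω R3)
    (u : ℝ → L2 Ω R3) (G : ℝ → L2 Ω Mat) : Prop where
  sol : IsLerayHopf Ω T n F u0 u G
  sigma : ∀ t ∈ Icc 0 T, u t ∈ L2sigma Ω
  cont : ContinuousOn u (Icc 0 T)
  energyEq : ∀ t ∈ Icc 0 T, defect n F u0 u G t = 0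
  unique : ∀ (u' : ℝ → L2 Ω R3) (G' : ℝ → L2 Ω Mat), IsLerayHopf Ω T n F u0 u' G' →
    (∀ t ∈ Icc 0 T, u' t = u t) ∧ ∀ᵐ t ∂(volume.restrict (Ioc 0 T)), G' t = G t
  stable : Stable Ω ν T n F u0 u G

/-- Admissible data: `u0 ∈ V`, with gradient `z0`; the force is `⟨f(t), φ⟩ = (F(t), ∇φ)` with
`F ∈ H¹(0,T; L²)` for every `T > 0`; the initial acceleration is in `L²`. -/
structure IsData (Ω : Set R3) (ν : ℝ) (u0 : L2 Ω R3) (F : ℝ → L2 Ω Mat) : Prop where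
  init : ∃ z0 : L2 Ω Mat, (u0, z0) ∈ H1graph Ω ∧ ∃ h : L2 Ω R3, ∀ φ, IsTest Ω φ →
    rhs ν u0 z0 (F 0) φ = ∫ x in Ω, ⟪h.fn x, φ x⟫_ℝ
  force : ∃ F' : ℝ → L2 Ω Mat, ∀ T, 0 < T → IsH1 T F F'

/-- There is a strong solution on `[0,T]`, with `∂_t u ∈ L²(0,T; V) ∩ L^∞(0,T; L²)`, for the
viscosity `ν + f(t)`, that is, for viscosity `ν` and force `F(t) - f(t) ∇u(t)`. -/
def HasStrong (Ω : Set R3) (ν T : ℝ) (f : ℝ → ℝ) (F : ℝ → L2 Ω Mat) (u0 : L2 Ω R3) : Prop :=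
  ∃ (u u' : ℝ → L2 Ω R3) (G G' : ℝ → L2 Ω Mat), u 0 = u0 ∧
    IsStrong Ω ν T (fun t => F t - f t • G t) u u' G G'

/-- There is a well-posed solution, see `WellPosed`. -/
def IsWellPosed (Ω : Set R3) (ν T : ℝ) (n : ℝ → ℝ) (F : ℝ → L2 Ω Mat) (u0 : L2 Ω R3) : Prop :=
  ∃ (u : ℝ → L2 Ω R3) (G : ℝ → L2 Ω Mat), WellPosed Ω ν T n F u0 u G

/-- Lebesgue measure on `(0,∞)`. -/
noncomputable abbrev half : Measure ℝ := volume.restrict (Ioi (0 : ℝ))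

/-- The space of the nonnegative functions (classes) in `L^p(0,∞)`. -/
def Visc (p : ℝ≥0∞) : Type := {f : Lp ℝ p half // ∀ᵐ t ∂half, 0 ≤ f t}

/-- The metric of the `L^p` norm. -/
noncomputable instance Visc.metric (p : ℝ≥0∞) [Fact (1 ≤ p)] : MetricSpace (Visc p) :=
  inferInstanceAs (MetricSpace {f : Lp ℝ p half // ∀ᵐ t ∂half, 0 ≤ f t})

/-- A function representing the class. -/
noncomputable def Visc.fn {p : ℝ≥0∞} (f : Visc p) : ℝ → ℝ := f.1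

end Pool.Agent.H319R3.GV.Pub
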