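import Mathlib
import Pool.Agent.H319R3.GV.Baire
import Pool.Agent.H319R3.GV.Pub
import Pool.Agent.H772R2.NSG.FinalH

/-!
The public definitions agree with the abstract ones.
-/

set_option linter.unusedSectionVars false

open MeasureTheory Set Filter Topology Metric
open scoped InnerProductSpace NNReal ENNReal ContDiff

namespace Pool.Agent.H319R3.GV

open H772R2.NS H772R2.NS.Pub H772R2.NSR
open H772R2.NSG (LH St Coef dft int_smul ii_of_int)

variable {Ω : Set E3} {ν T : ℝ} {n : ℝ → ℝ} {F : ℝ → L2M Ω} {u0 : L2V Ω} {u : ℝ → L2V Ω}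
  {G : ℝ → L2M Ω}

theorem coef_iff : Pub.IsCoef (Ω := (Ω : Set R3)) ν T n F ↔ Coef ν T n F :=
  ⟨fun h => ⟨h.visc, h.low, h.force⟩, fun h => ⟨h.n2, h.low, h.F2⟩⟩

theorem to_lh (hΩ : IsOpen Ω) {C : ℝ} (Fr : Frame (graphW Ω) tensL C) (Co : Coef ν T n F)
    (L : Pub.IsLerayHopf (Ω : Set R3) T n F u0 u G) : LH (graphW Ω) tensL T n F u0 u G := by
  have hm : MeasurableSet Ω := hΩ.measurableSet
  have hG2 : MemLp G 2 (volume.restrict (Ioc 0 T)) := L.gradL2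
  have hum : AEStronglyMeasurable u (volume.restrict (Ioc 0 T)) := L.meas
  have hgr : ∀ᵐ t ∂(volume.restrict (Ioc 0 T)), (u t, G t) ∈ graphW Ω := by
    filter_upwards [L.grad] with t ht
    exact mem_pub.mpr ht
  have hmm : AEStronglyMeasurable (fun s => tensL (u s)) (volume.restrict (Ioc 0 T)) :=
    aestronglyMeasurable_tensL hm hum hG2.aestronglyMeasurable hgr
  have hmi : Integrable (fun s => tensL (u s)) (volume.restrict (Ioc 0 T)) := by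
    have hz2 := (memLp_two_iff_integrable_sq_norm hG2.aestronglyMeasurable).mp hG2
    refine (hz2.const_mul C).mono' hmm ?_
    filter_upwards [hgr] with s hs
    exact H772R2.NSG.norm_m_le Fr (p := (u s, G s)) hs
  have hGi : Integrable (fun s => F s - n s • G s + tensL (u s)) (volume.restrict (Ioc 0 T)) :=
    ((Co.F2.integrable (by norm_num)).sub (int_smul Co.n2 hG2)).add hmi
  refine ⟨L.init, L.meas, hmm, hgr, L.gradL2, L.diss, ?_, L.energy⟩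
  intro p hp t ht
  have hsub : Ioc 0 t ⊆ Ioc 0 T := Ioc_subset_Ioc_right ht.2
  have hGt : IntegrableOn (fun s => F s - n s • G s + tensL (u s)) (Ioc 0 t) volume :=
    IntegrableOn.mono_set hGi hsub
  have hrw : ∀ q : L2V Ω × L2M Ω, ∫ s in (0 : ℝ)..t, ⟪F s - n s • G s + tensL (u s), q.2⟫_ℝ
      = ⟪q.2, ∫ s in Ioc 0 t, (F s - n s • G s + tensL (u s))⟫_ℝ := by
    intro q
    rw [intervalIntegral.integral_of_le ht.1, ← integral_inner hGt]
    refine integral_congr_ae (Eventually.of_forall fun s => ?_)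
    exact real_inner_comm _ _
  have hz := graphW_induction (fun q : L2V Ω × L2M Ω => ⟪u t - u0, q.1⟫_ℝ
      - ⟪q.2, ∫ s in Ioc 0 t, (F s - n s • G s + tensL (u s))⟫_ℝ) (by fun_prop)
    (fun q hq => by
      obtain ⟨φ, k1, k2, k3⟩ := hq
      have h1 := L.eqn φ ((isTest_iff φ).mpr k1) t ht
      have e1 := pub_inner (Ω := (Ω : Set R3)) (u t) k2
      have e2 := pub_inner (Ω := (Ω : Set R3)) u0 k2
      have e3 : ∫ s in (0 : ℝ)..t, Pub.rhs (Ω := (Ω : Set R3)) (n s) (u s) (G s) (F s) φ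
          = ∫ s in (0 : ℝ)..t, ⟪F s - n s • G s + tensL (u s), q.2⟫_ℝ := by
        rw [intervalIntegral.integral_of_le ht.1, intervalIntegral.integral_of_le ht.1]
        refine integral_congr_ae ?_
        have h2 : ∀ᵐ s ∂(volume.restrict (Ioc 0 t)), (u s, G s) ∈ graphW Ω :=
          ae_mono (Measure.restrict_mono hsub le_rfl) hgr
        filter_upwards [h2] with s hs
        exact pub_rhs hm (n s) (F s) hs k3
      have h4 : ⟪u t, q.1⟫_ℝ - ⟪u0, q.1⟫_ℝ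
          = ∫ s in (0 : ℝ)..t, ⟪F s - n s • G s + tensL (u s), q.2⟫_ℝ := by
        rw [← e3]
        exact (congrArg₂ (· - ·) e1 e2).symm.trans h1
      show ⟪u t - u0, q.1⟫_ℝ - ⟪q.2, ∫ s in Ioc 0 t, (F s - n s • G s + tensL (u s))⟫_ℝ = 0
      rw [← hrw q, inner_sub_left, h4, sub_self]) hp
  have hz' : ⟪u t - u0, p.1⟫_ℝ
      - ⟪p.2, ∫ s in Ioc 0 t, (F s - n s • G s + tensL (u s))⟫_ℝ = 0 := hz
  rw [hrw p]
  linarith

theorem of_lh (hΩ : IsOpen Ω) (L : LH (graphW Ω) tensL T n F u0 u G) :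
    Pub.IsLerayHopf (Ω : Set R3) T n F u0 u G := by
  have hm : MeasurableSet Ω := hΩ.measurableSet
  refine ⟨L.init, L.meas, ?_, L.z2, L.dis, ?_, L.energy⟩
  · filter_upwards [L.mem] with t ht
    exact mem_pub.mp ht
  · intro φ hφ t ht
    obtain ⟨p, hp, hp1, hp2⟩ := exists_pair (Ω := (Ω : Set R3)) ((isTest_iff φ).mp hφ)
    have h1 := L.weak p hp t ht
    have e1 := pub_inner (Ω := (Ω : Set R3)) (u t) hp1
    have e2 := pub_inner (Ω := (Ω : Set R3)) u0 hp1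
    have e3 : ∫ s in (0 : ℝ)..t, Pub.rhs (Ω := (Ω : Set R3)) (n s) (u s) (G s) (F s) φ
        = ∫ s in (0 : ℝ)..t, ⟪F s - n s • G s + tensL (u s), p.2⟫_ℝ := by
      rw [intervalIntegral.integral_of_le ht.1, intervalIntegral.integral_of_le ht.1]
      refine integral_congr_ae ?_
      have h2 : ∀ᵐ s ∂(volume.restrict (Ioc 0 t)), (u s, G s) ∈ graphW Ω :=
        ae_mono (Measure.restrict_mono (Ioc_subset_Ioc_right ht.2) le_rfl) L.mem
      filter_upwards [h2] with s hs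
      exact pub_rhs hm (n s) (F s) hs hp2
    refine (congrArg₂ (· - ·) e1 e2).trans ?_
    refine Eq.trans ?_ e3.symm
    rw [← h1, inner_sub_left]

theorem wp_pub (hΩ : IsOpen Ω) {C : ℝ} (Fr : Frame (graphW Ω) tensL C) (Co : Coef ν T n F)
    (P : WP (graphW Ω) tensL ν T n F u0 u G) :
    Pub.WellPosed (Ω : Set R3) ν T n F u0 u G := by
  refine ⟨of_lh hΩ P.lh, ?_, P.uc, P.eq, ?_, ?_⟩
  · intro t ht
    have h1 := P.cl t ht
    have h2 : (closure {x : L2V Ω | ∃ y, (x, y) ∈ graphW Ω}) ⊆ Pub.L2sigma (Ω : Set R3) := by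
      refine closure_minimal ?_ isClosed_closure
      rintro x ⟨y, hy⟩
      have h3 : (x, y) ∈ closure (preW Ω : Set (L2V Ω × L2M Ω)) := by
        have := hy
        unfold graphW at this
        rwa [← SetLike.mem_coe, Submodule.topologicalClosure_coe] at this
      have h4 := map_mem_closure (t := {v : L2 (Ω : Set R3) R3 | ∃ φ, Pub.IsTest (Ω : Set R3) φ ∧
        IsClass v φ}) (f := fun p : L2V Ω × L2M Ω => p.1) continuous_fst h3 (by
          rintro q ⟨φ, k1, k2, -⟩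
          exact ⟨φ, (isTest_iff φ).mpr k1, k2⟩)
      exact h4
    exact h2 h1
  · intro u' G' L'
    exact P.uniq u' G' (to_lh hΩ Fr Co L')
  · intro ε hε
    obtain ⟨δ, hδ, hd⟩ := P.stable ε hε
    refine ⟨δ, hδ, fun n' F' u0' u' G' Co' L' D => ?_⟩
    have Co'' : Coef (K := L2M Ω) ν T n' F' := coef_iff.mp Co'
    have h := hd n' F' u0' u' G' Co'' (to_lh hΩ Fr Co'' L') D.init D.force (by
      refine le_trans (le_of_eq ?_) D.visc
      refine integral_congr_ae (Eventually.of_forall fun s => ?_)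
      simp only [Real.norm_eq_abs])
    exact ⟨⟨h.1, h.2.1⟩, h.2.2⟩

theorem generic_mid {Ω : Set E3} (hΩ : IsOpen Ω) (hb : Bornology.IsBounded Ω) {ν : ℝ}
    (hν : 0 < ν) {u0 : L2V Ω} {z0 : L2M Ω} (h0 : (u0, z0) ∈ graphW Ω)
    {F F' : ℝ → L2M Ω} (hF1 : ∀ T, 0 < T → MemLp F' 2 (volume.restrict (Ioc 0 T)))
    (hF : ∀ a b, 0 ≤ a → a ≤ b → F b - F a = ∫ s in a..b, F' s)
    (hc : ∃ h : L2V Ω, ∀ φ : E3 → E3, H772R2.NS.IsTest Ω φ →
      Pub.rhs (Ω := Ω) ν u0 z0 (F 0) φ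
        = ∫ x in (show Set R3 from Ω), ⟪L2.fn (Ω := Ω) (E := R3) h x, (φ : R3 → R3) x⟫_ℝ)
    {p : ℝ≥0∞} [Fact (1 ≤ p)] (hp2 : 2 ≤ p) (hp5 : p ≤ 5) :
    ∃ R : Set (XX p), IsGδ R ∧ Dense R ∧ ∀ f ∈ R, ∀ T, 0 < T →
      ∃ (u : ℝ → L2V Ω) (G : ℝ → L2M Ω),
        Pub.WellPosed (Ω : Set R3) ν T (fun s => ν + f.1 s) F u0 u G := by
  obtain ⟨C, Fr⟩ := exists_frame hΩ hb
  obtain ⟨g0, hg0⟩ := hc
  have hm : MeasurableSet Ω := hΩ.measurableSet
  have hcomp : ∀ p ∈ graphW Ω, ⟪F 0 - ν • z0 + tensL u0, p.2⟫_ℝ = ⟪g0, p.1⟫_ℝ := by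
    refine compat_ext ?_
    rintro p ⟨φ, k1, k2, k3⟩
    rw [← pub_rhs hm ν (F 0) h0 k3, ← pub_inner (Ω := Ω) g0 k2]
    exact hg0 φ k1
  obtain ⟨R, hR1, hR2, hR3⟩ := generic (W := graphW Ω) (m := tensL) (F := F)
    (F1 := F') Fr hν (rellich_W hΩ hb) hF1 hF h0 hcomp hp2 hp5
  refine ⟨R, hR1, hR2, fun f hf T hT => ?_⟩
  obtain ⟨u, G, P⟩ := hR3 f hf T hT
  have hFc : ContinuousOn F (Icc 0 T) :=
    prim_cont (hF1 T hT) fun a b ha hab _ => hF a b ha hab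
  exact ⟨u, G, wp_pub hΩ Fr (coef_n hp2 f hFc) P⟩

/-- Generic viscosities, in terms of the public definitions. -/
theorem generic_pub {Ω : Set R3} (hΩ : IsOpen Ω) (hb : Bornology.IsBounded Ω) {ν : ℝ}
    (hν : 0 < ν) {u0 : L2 Ω R3} {z0 : L2 Ω Mat} (h0 : (u0, z0) ∈ Pub.H1graph Ω)
    {F F' : ℝ → L2 Ω Mat} (hF : ∀ T, 0 < T → IsH1 T F F')
    (hc : ∃ h : L2 Ω R3, ∀ φ, Pub.IsTest Ω φ →
      Pub.rhs ν u0 z0 (F 0) φ = ∫ x in Ω, ⟪h.fn x, φ x⟫_ℝ)
    {p : ℝ≥0∞} [Fact (1 ≤ p)] (hp2 : 2 ≤ p) (hp5 : p ≤ 5) :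
    ∃ R : Set (XX p), IsGδ R ∧ Dense R ∧ ∀ f ∈ R, ∀ T, 0 < T →
      ∃ (u : ℝ → L2 Ω R3) (G : ℝ → L2 Ω Mat),
        Pub.WellPosed Ω ν T (fun s => ν + f.1 s) F u0 u G := by
  obtain ⟨g0, hg0⟩ := hc
  exact generic_mid (Ω := (Ω : Set E3)) (F := F) (F' := F') (u0 := u0) (z0 := z0) hΩ hb hν
    (mem_pub.mpr h0) (fun T hT => (hF T hT).memLp)
    (fun a b ha hab => (hF (b + 1) (by linarith)).prim a b ha hab (by linarith))
    ⟨g0, fun φ hφ => hg0 φ ((isTest_iff φ).mpr hφ)⟩ hp2 hp5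

end Pool.Agent.H319R3.GV
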