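import Mathlib
import Pool.Agent.H319R3.GV.Baire

/-!
Strong solutions with bounded time derivative for a dense set of viscosities (the proof of
`H772R2.NSG.strong_near` with one more conclusion).
-/

set_option linter.unusedSectionVars false

open MeasureTheory Set Filter Topology Metric
open scoped InnerProductSpace NNReal ENNReal

namespace Pool.Agent.H319R3.GV

open H772R2.NSR (Frame grad_unique prim_cont)
open H772R2.NSG

variable {H K : Type*} [NormedAddCommGroup H] [InnerProductSpace ℝ H] [CompleteSpace H]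
  [NormedAddCommGroup K] [InnerProductSpace ℝ K] [CompleteSpace K]

variable {W : Submodule ℝ (H × K)} {m : H → K} {C : ℝ} {ν T : ℝ}

theorem strong_near' (Fr : Frame W m C) (hν : 0 < ν) (hT : 0 < T)
    (hcomp : ∀ R : ℝ, TotallyBounded {v : H | ∃ z, (v, z) ∈ W ∧ ‖z‖ ≤ R})
    {F F1 : ℝ → K} (hF1 : MemLp F1 2 (volume.restrict (Ioc 0 T)))
    (hF : ∀ a b, 0 ≤ a → a ≤ b → b ≤ T → F b - F a = ∫ s in a..b, F1 s)
    {x0 : H} {z0 : K} (h0 : (x0, z0) ∈ W) {g0 : H} {a : ℝ} (ha : ν ≤ a)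
    (hc : ∀ p ∈ W, ⟪F 0 - a • z0 + m x0, p.2⟫_ℝ = ⟪g0, p.1⟫_ℝ)
    {p : ℝ≥0∞} (hp1 : 1 ≤ p) (hp5 : p ≤ 5) {n : ℝ → ℝ}
    (hn : MemLp n p (volume.restrict (Ioc 0 T)))
    (hlow : ∀ᵐ s ∂(volume.restrict (Ioc 0 T)), ν ≤ n s) {ε : ℝ} (hε : 0 < ε) :
    ∃ (nb : ℝ → ℝ) (ub ub1 : ℝ → H) (zb zb1 : ℝ → K) (Z c1 : ℝ),
      St W m T nb F x0 ub zb ub1 zb1 Z ∧ (∀ᵐ s ∂(volume.restrict (Ioc 0 T)), ‖ub1 s‖ ≤ c1) ∧
      (∀ t ∈ Icc 0 T, ν ≤ nb t) ∧
      eLpNorm (nb - n) p (volume.restrict (Ioc 0 T)) ≤ ENNReal.ofReal ε := by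
  have hptop : p ≠ ⊤ := ne_top_of_le_ne_top (by norm_num) hp5
  have hp0 : 0 < p.toReal := ENNReal.toReal_pos (by
    intro h; rw [h] at hp1; exact absurd hp1 (by norm_num)) hptop
  -- the constant of the embedding
  set κ : ℝ≥0∞ := (volume.restrict (Ioc 0 T) : Measure ℝ) univ
    ^ (1 / p.toReal - 1 / (5 : ℝ≥0∞).toReal) with hκ
  have hκtop : κ ≠ ⊤ := by
    rw [hκ]
    refine ENNReal.rpow_ne_top_of_nonneg ?_ (measure_ne_top _ _)
    have : p.toReal ≤ (5 : ℝ≥0∞).toReal := ENNReal.toReal_mono (by norm_num) hp5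
    have := one_div_le_one_div_of_le hp0 this
    linarith
  set κr : ℝ := κ.toReal with hκr
  have hκr0 : 0 ≤ κr := ENNReal.toReal_nonneg
  have hκe : κ = ENNReal.ofReal κr := (ENNReal.ofReal_toReal hκtop).symm
  set η : ℝ := ε / (3 * (κr + 1)) with hη
  have hη0 : 0 < η := by positivity
  have hfive : ∀ f : ℝ → ℝ, AEStronglyMeasurable f (volume.restrict (Ioc 0 T)) →
      eLpNorm f 5 (volume.restrict (Ioc 0 T)) ≤ ENNReal.ofReal η →
      eLpNorm f p (volume.restrict (Ioc 0 T)) ≤ ENNReal.ofReal (ε / 3) := by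
    intro f hf hf5
    refine (eLpNorm_le_five hp5 hf).trans ?_
    rw [← hκ, hκe]
    calc eLpNorm f 5 (volume.restrict (Ioc 0 T)) * ENNReal.ofReal κr
        ≤ ENNReal.ofReal η * ENNReal.ofReal κr := by gcongr
      _ = ENNReal.ofReal (η * κr) := (ENNReal.ofReal_mul hη0.le).symm
      _ ≤ _ := by
          refine ENNReal.ofReal_le_ofReal ?_
          rw [hη, div_mul_eq_mul_div, div_le_div_iff₀ (by positivity) (by norm_num)]
          nlinarith
  -- smooth approximation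
  obtain ⟨g, hg1, hg2, hg3⟩ := hn.exist_eLpNorm_sub_le hptop hp1 (ε := ε / 3) (by positivity)
  obtain ⟨Bg, hBg⟩ := ContDiff.lipschitzWith_of_hasCompactSupport hg1 (hg2.of_le (m := 1) (by
    exact_mod_cast le_top)) (by norm_num)
  let n1 : ℝ → ℝ := fun t => max (g t) ν
  have hn1c : Continuous n1 := hg2.continuous.max continuous_const
  have hn1lip : ∀ s ∈ Icc 0 T, ∀ t ∈ Icc 0 T, ‖n1 s - n1 t‖ ≤ Bg * |s - t| := by
    intro s _ t _
    have h1 : |n1 s - n1 t| ≤ |g s - g t| := by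
      have := abs_max_sub_max_le_max (g s) ν (g t) ν
      simpa using this
    have h2 := hBg.dist_le_mul s t
    rw [Real.dist_eq, Real.dist_eq] at h2
    rw [Real.norm_eq_abs]
    exact h1.trans h2
  obtain ⟨M, hM⟩ := (isCompact_Icc.image_of_continuousOn
    (hn1c.continuousOn (s := Icc 0 T))).isBounded.exists_norm_le
  have hM' : ∀ t ∈ Icc 0 T, ‖n1 t‖ ≤ M := fun t ht => hM _ ⟨t, ht, rfl⟩
  have hM0 : 0 ≤ M := (norm_nonneg _).trans (hM' 0 ⟨le_rfl, hT.le⟩)
  have hn1n : eLpNorm (n1 - n) p (volume.restrict (Ioc 0 T)) ≤ ENNReal.ofReal (ε / 3) := by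
    refine le_trans (eLpNorm_mono_ae ?_) hg3
    filter_upwards [hlow] with s hs
    show ‖max (g s) ν - n s‖ ≤ ‖n s - g s‖
    rw [norm_sub_rev (n s)]
    have := abs_max_sub_max_le_max (g s) ν (n s) ν
    rw [max_eq_left hs] at this
    simpa using this
  -- correction at time zero
  obtain ⟨n2, B2, k1, k2, k3, k4, k5, k6⟩ := cut hT (Y := ℝ) Bg.coe_nonneg hM0 hn1lip hM' a hη0
  have hlow2 : ∀ t ∈ Icc 0 T, ν ≤ n2 t := by
    intro t ht
    obtain ⟨θ, hθ, e⟩ := k4 t ht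
    rw [e, smul_eq_mul, smul_eq_mul]
    have h1 : ν ≤ n1 t := le_max_right _ _
    nlinarith [hθ.1, hθ.2]
  have N : Base n2 ν T B2 := ⟨k2, hlow2, fun s hs t ht => by
    have := k3 s hs t ht
    rwa [Real.norm_eq_abs] at this⟩
  -- the closed-loop solution
  obtain ⟨u, u1, z, z1, lam, g1, c1, a1, a2, a3, a4, a5, a6, a7, a8, a9, a10, a11, a12, a13, a14,
    a15, a16, a17⟩ := main_abs Fr N hν hT hF1 hF hcomp h0 (g0 := g0) (by rw [k1]; exact hc)
      (ε := η ^ 5) (by positivity)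
  have hlamm : MemLp lam 5 (volume.restrict (Ioc 0 T)) := mem_cont a11
  have hlam5 : eLpNorm lam 5 (volume.restrict (Ioc 0 T)) ≤ ENNReal.ofReal η := by
    refine eLpNorm_five_le hlamm hη0.le ?_
    rw [intervalIntegral.integral_of_le hT.le] at a15
    refine le_trans ?_ a15
    refine integral_mono_of_nonneg (Eventually.of_forall fun s => by positivity) ?_
      (Eventually.of_forall fun s => ?_)
    · have : ContinuousOn (fun t => lam t ^ 5 * lg (lam t)) (Icc 0 T) :=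
        (a11.pow 5).mul (lg_cont.comp a11 (fun t _ => a12 t))
      exact (mem_cont (p := 1) this).integrable le_rfl
    · show ‖lam s‖ ^ 5 ≤ lam s ^ 5 * lg (lam s)
      rw [Real.norm_eq_abs, abs_of_nonneg (a12 s)]
      have := lg_one_le (a12 s)
      have h5 : 0 ≤ lam s ^ 5 := pow_nonneg (a12 s) 5
      nlinarith
  have hzc : ContinuousOn z (Icc 0 T) := prim_cont a4 a7
  obtain ⟨Z, hZ⟩ := (isCompact_Icc.image_of_continuousOn hzc).isBounded.exists_norm_le
  refine ⟨fun t => n2 t + lam t, u, u1, z, z1, Z, c1, ?_, ?_, fun t ht => ?_, ?_⟩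
  · constructor
    · exact a1
    · exact a2
    · exact a3
    · exact a4
    · exact a6
    · exact a7
    · filter_upwards [a9] with s hs
      exact hs.1
    · exact k5.add a11
    · exact prim_cont hF1 hF
    · intro q hq t ht
      rw [← a1]
      exact a10 q hq t ht
    · intro t ht
      rw [← a1]
      exact a17 t ht
    · intro t ht
      exact hZ _ ⟨t, ht, rfl⟩
  · filter_upwards [a9] with s hs
    exact hs.2
  · show ν ≤ n2 t + lam t
    linarith [hlow2 t ht, a12 t]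
  · have hm2 : AEStronglyMeasurable (n2 - n1) (volume.restrict (Ioc 0 T)) :=
      (mem_cont (p := 1) (k5.sub hn1c.continuousOn)).aestronglyMeasurable
    have hm1 : AEStronglyMeasurable (n1 - n) (volume.restrict (Ioc 0 T)) :=
      hn1c.aestronglyMeasurable.sub hn.aestronglyMeasurable
    have h1 := hfive _ hm2 k6
    have h2 := hfive _ hlamm.aestronglyMeasurable hlam5
    have e : (fun t => n2 t + lam t) - n = lam + ((n2 - n1) + (n1 - n)) := by
      ext t; simp only [Pi.sub_apply, Pi.add_apply]; ring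
    rw [e]
    calc eLpNorm (lam + ((n2 - n1) + (n1 - n))) p (volume.restrict (Ioc 0 T))
        ≤ eLpNorm lam p (volume.restrict (Ioc 0 T))
          + eLpNorm ((n2 - n1) + (n1 - n)) p (volume.restrict (Ioc 0 T)) :=
          eLpNorm_add_le hlamm.aestronglyMeasurable (hm2.add hm1) hp1
      _ ≤ ENNReal.ofReal (ε / 3) + (ENNReal.ofReal (ε / 3) + ENNReal.ofReal (ε / 3)) := by
          gcongr
          exact (eLpNorm_add_le hm2 hm1 hp1).trans (add_le_add h1 hn1n)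
      _ = ENNReal.ofReal ε := by
          rw [← ENNReal.ofReal_add (by positivity) (by positivity),
            ← ENNReal.ofReal_add (by positivity) (by positivity)]
          congr 1; ring


theorem strong_dense {p : ℝ≥0∞} [Fact (1 ≤ p)] (Fr : Frame W m C) (hν : 0 < ν) (hT : 0 < T)
    (hcomp : ∀ R : ℝ, TotallyBounded {v : H | ∃ z, (v, z) ∈ W ∧ ‖z‖ ≤ R})
    {F F1 : ℝ → K} (hF1 : MemLp F1 2 (volume.restrict (Ioc 0 T)))
    (hF : ∀ a b, 0 ≤ a → a ≤ b → b ≤ T → F b - F a = ∫ s in a..b, F1 s)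
    {x0 : H} {z0 : K} (h0 : (x0, z0) ∈ W) {g0 : H}
    (hc : ∀ p ∈ W, ⟪F 0 - ν • z0 + m x0, p.2⟫_ℝ = ⟪g0, p.1⟫_ℝ) (hp5 : p ≤ 5) :
    Dense {f : XX p | ∃ (nb : ℝ → ℝ) (ub ub1 : ℝ → H) (zb zb1 : ℝ → K) (Z c1 : ℝ),
      St W m T nb F x0 ub zb ub1 zb1 Z ∧ (∀ᵐ s ∂(volume.restrict (Ioc 0 T)), ‖ub1 s‖ ≤ c1) ∧
      ∀ᵐ s ∂(volume.restrict (Ioc 0 T)), ν + f.1 s = nb s} := by
  rw [Metric.dense_iff]
  intro f r hr
  have hp1 : 1 ≤ p := Fact.out
  obtain ⟨nb, ub, ub1, zb, zb1, Z, c1, S, hbd, hlow, hnear⟩ := strong_near' Fr hν hT hcomp hF1 hF h0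
    (le_refl ν) hc hp1 hp5 (memLp_n f T ν) (low_n f T ν) (ε := r / 2) (by positivity)
  set h : ℝ → ℝ := (Ioc 0 T).indicator (fun s => nb s - (ν + f.1 s)) with hh
  have hm0 : MemLp (fun s => nb s - (ν + f.1 s)) p (volume.restrict (Ioc 0 T)) :=
    (mem_cont S.nc).sub (memLp_n f T ν)
  have hmv : MemLp h p volume := by
    rw [hh, memLp_indicator_iff_restrict measurableSet_Ioc]
    exact hm0
  have hm : MemLp h p (volume.restrict (Ioi (0 : ℝ))) := hmv.mono_measure Measure.restrict_le_self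
  let g : Lp ℝ p (volume.restrict (Ioi (0 : ℝ)) : Measure ℝ) := f.1 + hm.toLp h
  have hgc : ∀ᵐ s ∂(volume.restrict (Ioi (0 : ℝ))), g s = f.1 s + h s := by
    filter_upwards [Lp.coeFn_add f.1 (hm.toLp h), hm.coeFn_toLp] with s h1 h2
    show (f.1 + hm.toLp h : Lp ℝ p (volume.restrict (Ioi (0 : ℝ)) : Measure ℝ)) s = _
    rw [h1, Pi.add_apply, h2]
  have hgT : ∀ᵐ s ∂(volume.restrict (Ioc 0 T)), ν + g s = nb s := by
    filter_upwards [ae_mono (le_mu T) hgc, ae_restrict_mem measurableSet_Ioc] with s h1 h2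
    rw [h1, hh, indicator_of_mem h2]
    ring
  have hg0 : ∀ᵐ s ∂(volume.restrict (Ioi (0 : ℝ))), 0 ≤ g s := by
    filter_upwards [hgc, f.2] with s h1 h2
    rw [h1, hh]
    by_cases hs : s ∈ Ioc 0 T
    · rw [indicator_of_mem hs]
      have := hlow s (Ioc_subset_Icc_self hs)
      linarith
    · rw [indicator_of_notMem hs]
      linarith
  refine ⟨⟨g, hg0⟩, ?_, nb, ub, ub1, zb, zb1, Z, c1, S, hbd, hgT⟩
  rw [mem_ball, Subtype.dist_eq, dist_eq_norm]
  show ‖g - f.1‖ < r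
  have e1 : g - f.1 = hm.toLp h := by show f.1 + hm.toLp h - f.1 = _; abel
  rw [e1, Lp.norm_toLp]
  have e2 : eLpNorm h p (volume.restrict (Ioi (0 : ℝ))) ≤ ENNReal.ofReal (r / 2) := by
    refine (eLpNorm_mono_measure h Measure.restrict_le_self).trans ?_
    rw [hh, eLpNorm_indicator_eq_eLpNorm_restrict measurableSet_Ioc]
    exact hnear
  calc (eLpNorm h p (volume.restrict (Ioi (0 : ℝ)))).toReal ≤ r / 2 :=
        ENNReal.toReal_le_of_le_ofReal (by positivity) e2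
    _ < r := by linarith

end Pool.Agent.H319R3.GV
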