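import Mathlib
import Pool.Agent.H319R3.GV.Near
import Pool.Agent.H319R3.GV.Bridge

/-!
Dense set of viscosities with strong solutions, in terms of the public definitions.
-/

set_option linter.unusedSectionVars false

open MeasureTheory Set Filter Topology Metric
open scoped InnerProductSpace NNReal ENNReal ContDiff

namespace Pool.Agent.H319R3.GV

open H772R2.NS H772R2.NS.Pub H772R2.NSR
open H772R2.NSG (LH St Coef dft int_smul ii_of_int)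

theorem st_pub {Ω : Set E3} (hΩ : IsOpen Ω) {ν T : ℝ} {F : ℝ → L2M Ω} {u0 : L2V Ω}
    {u u1 : ℝ → L2V Ω} {z z1 : ℝ → L2M Ω} {nb : ℝ → ℝ} {Z c1 : ℝ}
    (S : St (graphW Ω) tensL T nb F u0 u z u1 z1 Z)
    (hb : ∀ᵐ s ∂(volume.restrict (Ioc 0 T)), ‖u1 s‖ ≤ c1) {f : ℝ → ℝ}
    (hf : ∀ᵐ s ∂(volume.restrict (Ioc 0 T)), ν + f s = nb s) :
    IsStrong (show Set R3 from Ω) ν T (fun t => F t - f t • z t) u u1 z z1 := by
  have hm : MeasurableSet Ω := hΩ.measurableSet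
  constructor
  · intro t ht
    exact mem_pub.mp (S.mem t ht)
  · filter_upwards [S.mem1] with t ht
    exact mem_pub.mp ht
  · exact ⟨S.u1i, S.pu⟩
  · exact ⟨S.z1i, S.pz⟩
  · exact ⟨c1, hb⟩
  · intro φ hφ t ht
    obtain ⟨p, hp, hp1, hp2⟩ := exists_pair (Ω := (Ω : Set R3)) ((isTest_iff φ).mp hφ)
    have h1 := S.weak p hp t ht
    have e1 := pub_inner (Ω := (Ω : Set R3)) (u t) hp1
    have e2 := pub_inner (Ω := (Ω : Set R3)) (u 0) hp1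
    have e3 : ∫ s in (0 : ℝ)..t, Pub.rhs (Ω := (Ω : Set R3)) ν (u s) (z s) (F s - f s • z s) φ
        = ∫ s in (0 : ℝ)..t, ⟪F s - nb s • z s + tensL (u s), p.2⟫_ℝ := by
      rw [intervalIntegral.integral_of_le ht.1, intervalIntegral.integral_of_le ht.1]
      refine integral_congr_ae ?_
      have h2 : ∀ᵐ s ∂(volume.restrict (Ioc 0 t)), ν + f s = nb s :=
        ae_mono (Measure.restrict_mono (Ioc_subset_Ioc_right ht.2) le_rfl) hf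
      filter_upwards [h2, ae_restrict_mem measurableSet_Ioc] with s hs hs2
      have k1 := pub_rhs hm ν (F s - f s • z s) (S.mem s ⟨hs2.1.le, hs2.2.trans ht.2⟩) hp2
      refine k1.trans ?_
      have e4 : F s - f s • z s - ν • z s + tensL (u s) = F s - nb s • z s + tensL (u s) := by
        rw [← hs, add_smul]; abel
      exact congrArg (fun w => ⟪w, p.2⟫_ℝ) e4
    refine (congrArg₂ (· - ·) e1 e2).trans ?_
    refine Eq.trans ?_ e3.symm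
    rw [← h1, inner_sub_left, S.init]

theorem strong_mid {Ω : Set E3} (hΩ : IsOpen Ω) (hb : Bornology.IsBounded Ω) {ν : ℝ}
    (hν : 0 < ν) {u0 : L2V Ω} {z0 : L2M Ω} (h0 : (u0, z0) ∈ graphW Ω)
    {F F' : ℝ → L2M Ω} (hF1 : ∀ T, 0 < T → MemLp F' 2 (volume.restrict (Ioc 0 T)))
    (hF : ∀ a b, 0 ≤ a → a ≤ b → F b - F a = ∫ s in a..b, F' s)
    (hc : ∃ h : L2V Ω, ∀ φ : E3 → E3, H772R2.NS.IsTest Ω φ →
      Pub.rhs (Ω := Ω) ν u0 z0 (F 0) φ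
        = ∫ x in (show Set R3 from Ω), ⟪L2.fn (Ω := Ω) (E := R3) h x, (φ : R3 → R3) x⟫_ℝ)
    {p : ℝ≥0∞} [Fact (1 ≤ p)] (hp5 : p ≤ 5) {T : ℝ} (hT : 0 < T) :
    Dense {f : XX p | ∃ (u u1 : ℝ → L2V Ω) (z z1 : ℝ → L2M Ω), u 0 = u0 ∧
      IsStrong (Ω : Set R3) ν T (fun t => F t - f.1 t • z t) u u1 z z1} := by
  obtain ⟨C, Fr⟩ := exists_frame hΩ hb
  obtain ⟨g0, hg0⟩ := hc
  have hm : MeasurableSet Ω := hΩ.measurableSet
  have hcomp : ∀ p ∈ graphW Ω, ⟪F 0 - ν • z0 + tensL u0, p.2⟫_ℝ = ⟪g0, p.1⟫_ℝ := by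
    refine compat_ext ?_
    rintro p ⟨φ, k1, k2, k3⟩
    rw [← pub_rhs hm ν (F 0) h0 k3, ← pub_inner (Ω := Ω) g0 k2]
    exact hg0 φ k1
  have hd := strong_dense (p := p) (W := graphW Ω) (m := tensL) (F := F) (F1 := F') Fr hν hT
    (rellich_W hΩ hb) (hF1 T hT) (fun a b ha hab _ => hF a b ha hab) h0 hcomp hp5
  refine hd.mono ?_
  rintro f ⟨nb, ub, ub1, zb, zb1, Z, c1, S, h1, h2⟩
  exact ⟨ub, ub1, zb, zb1, S.init, st_pub hΩ S h1 h2⟩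

theorem strong_pub {Ω : Set R3} (hΩ : IsOpen Ω) (hb : Bornology.IsBounded Ω) {ν : ℝ}
    (hν : 0 < ν) {u0 : L2 Ω R3} {z0 : L2 Ω Mat} (h0 : (u0, z0) ∈ Pub.H1graph Ω)
    {F F' : ℝ → L2 Ω Mat} (hF : ∀ T, 0 < T → IsH1 T F F')
    (hc : ∃ h : L2 Ω R3, ∀ φ, Pub.IsTest Ω φ →
      Pub.rhs ν u0 z0 (F 0) φ = ∫ x in Ω, ⟪h.fn x, φ x⟫_ℝ)
    {p : ℝ≥0∞} [Fact (1 ≤ p)] (hp5 : p ≤ 5) {T : ℝ} (hT : 0 < T) :
    Dense {f : XX p | ∃ (u u' : ℝ → L2 Ω R3) (G G' : ℝ → L2 Ω Mat), u 0 = u0 ∧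
      IsStrong Ω ν T (fun t => F t - f.1 t • G t) u u' G G'} := by
  obtain ⟨g0, hg0⟩ := hc
  exact strong_mid (Ω := (Ω : Set E3)) (F := F) (F' := F') (u0 := u0) (z0 := z0) hΩ hb hν
    (mem_pub.mpr h0) (fun T hT => (hF T hT).memLp)
    (fun a b ha hab => (hF (b + 1) (by linarith)).prim a b ha hab (by linarith))
    ⟨g0, fun φ hφ => hg0 φ ((isTest_iff φ).mpr hφ)⟩ hp5 hT

end Pool.Agent.H319R3.GV
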